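import Mathlib

set_option autoImplicit false

namespace Pool.Agent.SuperADP

/-- The super alternative Daugavet property: for every `x` of norm one and every relatively weakly
open subset `W = {y | ‖y‖ ≤ 1 ∧ y ∈ U}` of the closed unit ball which contains a point of norm one,
the supremum of `‖x + θ y‖` over `y ∈ W` and scalars `θ` of modulus one equals `2`. -/
def HasSuperADP (𝕜 X : Type*) [RCLike 𝕜] [NormedAddCommGroup X] [NormedSpace 𝕜 X] : Prop :=
  ∀ x : X, ‖x‖ = 1 → ∀ U : Set (WeakSpace 𝕜 X), IsOpen U →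
    (∃ y : X, ‖y‖ = 1 ∧ toWeakSpace 𝕜 X y ∈ U) →
    IsLUB {r : ℝ | ∃ y : X, ‖y‖ ≤ 1 ∧ toWeakSpace 𝕜 X y ∈ U ∧
      ∃ θ : 𝕜, ‖θ‖ = 1 ∧ r = ‖x + θ • y‖} 2

/-- `X` contains a copy of `ℓ₁`: some closed linear subspace of `X` is linearly homeomorphic to the
space of absolutely summable scalar sequences. -/
def ContainsEllOne (𝕜 X : Type*) [RCLike 𝕜] [NormedAddCommGroup X] [NormedSpace 𝕜 X] : Prop :=
  ∃ Y : Submodule 𝕜 X, IsClosed (Y : Set X) ∧ Nonempty (Y ≃L[𝕜] lp (fun _ : ℕ => 𝕜) 1)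

/-- `a` is a point of continuity of the set `A`: `a ∈ A`, and the identity map from `A` with the
weak topology to `A` with the norm topology is continuous at `a`. -/
def IsPointOfContinuity (𝕜 : Type*) {X : Type*} [RCLike 𝕜] [NormedAddCommGroup X]
    [NormedSpace 𝕜 X] (A : Set X) (a : X) : Prop :=
  a ∈ A ∧ ContinuousWithinAt (fun z : WeakSpace 𝕜 X => (toWeakSpace 𝕜 X).symm z)
    (toWeakSpace 𝕜 X '' A) (toWeakSpace 𝕜 X a)

/-- The convex point of continuity property: every nonempty closed convex bounded subset has a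
point of continuity. -/
def HasCPCP (𝕜 X : Type*) [RCLike 𝕜] [NormedAddCommGroup X] [NormedSpace 𝕜 X] : Prop :=
  ∀ A : Set X, A.Nonempty → IsClosed A → Bornology.IsBounded A →
    (∀ x ∈ A, ∀ y ∈ A, ∀ t : ℝ, 0 ≤ t → t ≤ 1 → (t : 𝕜) • x + ((1 - t : ℝ) : 𝕜) • y ∈ A) →
    ∃ a : X, IsPointOfContinuity 𝕜 A a

end Pool.Agent.SuperADP
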