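import Pool.Agent.SuperADP.Mean

set_option autoImplicit false

namespace Pool.Agent.SuperADP

open Filter Topology Metric BoundedContinuousFunction

variable {𝕜 X : Type*} [RCLike 𝕜] [NormedAddCommGroup X] [NormedSpace 𝕜 X] [CompleteSpace X]

lemma opOf_single {Z : Type*} [NormedAddCommGroup Z] [NormedSpace 𝕜 Z] [CompleteSpace Z]
    (y : ℕ → Z) (hy : ∀ n, ‖y n‖ ≤ 1) (n : ℕ) :
    opOf y hy (lp.single 1 n (1 : 𝕜)) = y n := by
  rw [opOf_apply, tsum_eq_single n]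
  · rw [lp.single_apply_self, one_smul]
  · intro m hm
    rw [lp.single_apply_ne _ _ _ hm, zero_smul]

/-- Functionals with prescribed values of modulus at most one on an `ℓ₁`-sequence. -/
lemma exists_prescribed {y : ℕ → X} (hy : ∀ n, ‖y n‖ ≤ 1) {c : ℝ} (hc : 0 < c)
    (hlow : ∀ (n : ℕ) (a : ℕ → 𝕜),
      c * ∑ i ∈ Finset.range n, ‖a i‖ ≤ ‖∑ i ∈ Finset.range n, a i • y i‖)
    (σ : ℕ → 𝕜) (hσ : ∀ n, ‖σ n‖ ≤ 1) :
    ∃ g : StrongDual 𝕜 X, ‖g‖ ≤ c⁻¹ ∧ ∀ n, g (y n) = σ n := by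
  set T : lp (fun _ : ℕ => 𝕜) 1 →L[𝕜] X := opOf y hy with hT
  have hanti : AntilipschitzWith (Real.toNNReal c⁻¹) T := by
    refine ContinuousLinearMap.antilipschitz_of_bound T (K := Real.toNNReal c⁻¹) (fun a => ?_)
    rw [Real.coe_toNNReal _ (by positivity)]
    have := opOf_lower y hy hlow a
    rw [inv_mul_eq_div, le_div_iff₀ hc]
    linarith
  have hclosed : IsClosed (Set.range T) := hanti.isClosed_range T.uniformContinuous
  let e := T.equivRange hanti.injective hclosed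
  let ψ : StrongDual 𝕜 (LinearMap.range (T : lp (fun _ : ℕ => 𝕜) 1 →ₗ[𝕜] X)) :=
    (opOf σ hσ : lp (fun _ : ℕ => 𝕜) 1 →L[𝕜] 𝕜).comp
      (e.symm : LinearMap.range (T : lp (fun _ : ℕ => 𝕜) 1 →ₗ[𝕜] X) →L[𝕜] lp (fun _ : ℕ => 𝕜) 1)
  have hψ : ‖ψ‖ ≤ c⁻¹ := by
    refine ContinuousLinearMap.opNorm_le_bound _ (by positivity) (fun z => ?_)
    obtain ⟨a, rfl⟩ : ∃ a, e a = z := ⟨e.symm z, e.apply_symm_apply z⟩
    have h1 : ψ (e a) = opOf σ hσ a := by
      change opOf σ hσ (e.symm (e a)) = _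
      rw [e.symm_apply_apply]
    have h2 : ‖opOf σ hσ a‖ ≤ ‖a‖ := by
      refine tsum_of_norm_bounded (lp1_hasSum a) (fun n => ?_)
      rw [norm_smul]
      have := mul_le_mul_of_nonneg_left (hσ n) (norm_nonneg (a n))
      simpa using this
    have h3 : ‖e a‖ = ‖T a‖ := rfl
    have h4 := opOf_lower y hy hlow a
    rw [h1, h3, inv_mul_eq_div, le_div_iff₀ hc]
    nlinarith
  obtain ⟨g, hg, hgn⟩ := exists_extension_norm_eq _ ψ
  refine ⟨g, hgn.le.trans hψ, fun n => ?_⟩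
  have h5 : y n = T (lp.single 1 n (1 : 𝕜)) := (opOf_single y hy n).symm
  have h6 := hg (e (lp.single 1 n (1 : 𝕜)))
  have h7 : ((e (lp.single 1 n (1 : 𝕜)) :
    LinearMap.range (T : lp (fun _ : ℕ => 𝕜) 1 →ₗ[𝕜] X)) : X) = y n := by
    rw [h5]; rfl
  rw [h7] at h6
  rw [h6]
  change opOf σ hσ (e.symm (e _)) = _
  rw [e.symm_apply_apply, opOf_single]

/-- A bounded sequence of functionals as an operator into the bounded sequences. -/
noncomputable def toBd (g : ℕ → StrongDual 𝕜 X) {C : ℝ} (hg : ∀ j, ‖g j‖ ≤ C) : X →L[𝕜] Bd 𝕜 :=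
  LinearMap.mkContinuous
    { toFun := fun x => BoundedContinuousFunction.ofNormedAddCommGroupDiscrete
        (fun j => g j x) (C * ‖x‖) (fun j => (g j).le_of_opNorm_le (hg j) x)
      map_add' := fun x y => by ext j; simp
      map_smul' := fun c x => by ext j; simp } C
    (fun x => by
      have hC : 0 ≤ C := (norm_nonneg _).trans (hg 0)
      exact (BoundedContinuousFunction.norm_le (by positivity)).mpr
        (fun j => (g j).le_of_opNorm_le (hg j) x))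

omit [CompleteSpace X] in
lemma toBd_apply (g : ℕ → StrongDual 𝕜 X) {C : ℝ} (hg : ∀ j, ‖g j‖ ≤ C) (x : X) (j : ℕ) :
    toBd g hg x j = g j x := rfl

omit [CompleteSpace X] in
lemma norm_toBd_le (g : ℕ → StrongDual 𝕜 X) {C : ℝ} (hg : ∀ j, ‖g j‖ ≤ C) (x : X) :
    ‖toBd g hg x‖ ≤ C * ‖x‖ := by
  have hC : 0 ≤ C := (norm_nonneg _).trans (hg 0)
  exact (BoundedContinuousFunction.norm_le (by positivity)).mpr
    (fun j => (g j).le_of_opNorm_le (hg j) x)

/-- The operator from bounded sequences to the dual: `h` is sent to the mean of `h j • g j`. -/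
noncomputable def opT (G : X →L[𝕜] Bd 𝕜) : Bd 𝕜 →ₗ[𝕜] StrongDual 𝕜 X where
  toFun h := (mean 𝕜).comp ((ContinuousLinearMap.mul 𝕜 (Bd 𝕜) h).comp G)
  map_add' h k := by ext x; simp
  map_smul' c h := by ext x; simp

omit [CompleteSpace X] in
lemma opT_apply (G : X →L[𝕜] Bd 𝕜) (h : Bd 𝕜) (x : X) : opT G h x = mean 𝕜 (h * G x) := rfl

/-- The dual of a Banach space with a normalized `ℓ₁`-sequence fails the convex point of
continuity property. -/
theorem not_cpcp_of_sequence {y : ℕ → X} (hy : ∀ n, ‖y n‖ ≤ 1) {c : ℝ} (hc : 0 < c)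
    (hlow : ∀ (n : ℕ) (a : ℕ → 𝕜),
      c * ∑ i ∈ Finset.range n, ‖a i‖ ≤ ‖∑ i ∈ Finset.range n, a i • y i‖) :
    ¬ HasCPCP 𝕜 (StrongDual 𝕜 X) := by
  -- functionals taking the Rademacher signs on the sequence
  have hex : ∀ j : ℕ, ∃ g : StrongDual 𝕜 X, ‖g‖ ≤ c⁻¹ ∧ ∀ k, g (y k) = ((sgn k j : ℝ) : 𝕜) :=
    fun j => exists_prescribed hy hc hlow (fun k => ((sgn k j : ℝ) : 𝕜))
      (fun k => by rw [RCLike.norm_ofReal, abs_sgn])
  choose g hg hgy using hex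
  set G : X →L[𝕜] Bd 𝕜 := toBd g hg with hG
  have hGy : ∀ k, G (y k) = rad 𝕜 k := by
    intro k
    ext j
    rw [hG, toBd_apply, hgy, rad_apply]
  have hGn : ∀ x, ‖G x‖ ≤ c⁻¹ * ‖x‖ := norm_toBd_le g hg
  clear_value G
  -- the convex set
  let H : Set (Bd 𝕜) := {h | IsNonneg h ∧ mean 𝕜 h = 1}
  let D : Set (StrongDual 𝕜 X) := closure (opT G '' H)
  have hbound : ∀ h ∈ H, ‖opT G h‖ ≤ c⁻¹ := by
    intro h hh
    refine ContinuousLinearMap.opNorm_le_bound _ (by positivity) (fun x => ?_)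
    rw [opT_apply]
    have h1 := norm_mean_mul_le hh.1 (G x)
    rw [hh.2, norm_one, mul_one] at h1
    exact h1.trans (hGn x)
  have hone : (1 : Bd 𝕜) ∈ H := ⟨fun j => ⟨1, zero_le_one, by simp⟩, mean_one⟩
  -- weak convergence of the perturbations
  have hweak : ∀ (h : Bd 𝕜) (φ : StrongDual 𝕜 (StrongDual 𝕜 X)),
      Tendsto (fun k => φ (opT G (h * rad 𝕜 k))) atTop (𝓝 0) := by
    intro h φ
    apply tendsto_zero_of_bessel _ (‖φ‖ * (‖h‖ * c⁻¹))
    intro K a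
    have h1 : ∑ k ∈ Finset.range K, a k * φ (opT G (h * rad 𝕜 k)) =
        φ (opT G (h * ∑ k ∈ Finset.range K, a k • rad 𝕜 k)) := by
      rw [Finset.mul_sum, map_sum, map_sum]
      apply Finset.sum_congr rfl
      intro k _
      rw [mul_smul_comm, map_smul, map_smul, smul_eq_mul]
    rw [h1]
    have hS : 0 ≤ Real.sqrt (∑ k ∈ Finset.range K, ‖a k‖ ^ 2) := Real.sqrt_nonneg _
    have h2 : ‖opT G (h * ∑ k ∈ Finset.range K, a k • rad 𝕜 k)‖ ≤
        (‖h‖ * c⁻¹) * Real.sqrt (∑ k ∈ Finset.range K, ‖a k‖ ^ 2) := by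
      refine ContinuousLinearMap.opNorm_le_bound _ (by positivity) (fun x => ?_)
      rw [opT_apply]
      have h3 : h * (∑ k ∈ Finset.range K, a k • rad 𝕜 k) * G x =
          (h * G x) * ∑ k ∈ Finset.range K, a k • rad 𝕜 k := by ring
      rw [h3]
      refine (norm_mean_mul_rad_le K (h * G x) a).trans ?_
      have h4 : ‖h * G x‖ ≤ ‖h‖ * (c⁻¹ * ‖x‖) := by
        refine (norm_mul_le _ _).trans ?_
        have := hGn x
        gcongr
      calc ‖h * G x‖ * Real.sqrt (∑ k ∈ Finset.range K, ‖a k‖ ^ 2)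
          ≤ (‖h‖ * (c⁻¹ * ‖x‖)) * Real.sqrt (∑ k ∈ Finset.range K, ‖a k‖ ^ 2) := by gcongr
        _ = _ := by ring
    calc ‖φ (opT G (h * ∑ k ∈ Finset.range K, a k • rad 𝕜 k))‖
        ≤ ‖φ‖ * ‖opT G (h * ∑ k ∈ Finset.range K, a k • rad 𝕜 k)‖ := φ.le_opNorm _
      _ ≤ ‖φ‖ * ((‖h‖ * c⁻¹) * Real.sqrt (∑ k ∈ Finset.range K, ‖a k‖ ^ 2)) := by gcongr
      _ = _ := by ring
  have hcoef : ∀ h : Bd 𝕜, Tendsto (fun k => mean 𝕜 (h * rad 𝕜 k)) atTop (𝓝 0) := by
    intro h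
    apply tendsto_zero_of_bessel _ ‖h‖
    intro K a
    have h1 : ∑ k ∈ Finset.range K, a k * mean 𝕜 (h * rad 𝕜 k) =
        mean 𝕜 (h * ∑ k ∈ Finset.range K, a k • rad 𝕜 k) := by
      rw [Finset.mul_sum, map_sum]
      apply Finset.sum_congr rfl
      intro k _
      rw [mul_smul_comm, map_smul, smul_eq_mul]
    rw [h1]
    exact norm_mean_mul_rad_le K h a
  intro hcpcp
  obtain ⟨a, haD, hacont⟩ := hcpcp D ⟨_, subset_closure ⟨1, hone, rfl⟩⟩ isClosed_closure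
    (by
      apply Bornology.IsBounded.closure
      rw [isBounded_iff_forall_norm_le]
      exact ⟨c⁻¹, by rintro _ ⟨h, hh, rfl⟩; exact hbound h hh⟩)
    (by
      intro x hx y hy t ht0 ht1
      have hcont : Continuous (fun p : StrongDual 𝕜 X × StrongDual 𝕜 X =>
        (t : 𝕜) • p.1 + ((1 - t : ℝ) : 𝕜) • p.2) := by fun_prop
      refine map_mem_closure₂ (f := fun p q : StrongDual 𝕜 X =>
        (t : 𝕜) • p + ((1 - t : ℝ) : 𝕜) • q) hcont hx hy ?_
      rintro _ ⟨h, hh, rfl⟩ _ ⟨k, hk, rfl⟩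
      refine ⟨(t : 𝕜) • h + ((1 - t : ℝ) : 𝕜) • k, ⟨fun j => ?_, ?_⟩, ?_⟩
      · obtain ⟨r, hr0, hr⟩ := hh.1 j
        obtain ⟨s, hs0, hs⟩ := hk.1 j
        refine ⟨t * r + (1 - t) * s, add_nonneg (mul_nonneg ht0 hr0)
          (mul_nonneg (by linarith) hs0), ?_⟩
        simp only [BoundedContinuousFunction.coe_add, BoundedContinuousFunction.coe_smul,
          Pi.add_apply, smul_eq_mul, hr, hs]
        push_cast
        ring
      · rw [map_add, map_smul, map_smul, hh.2, hk.2]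
        push_cast
        simp
      · rw [map_add, map_smul, map_smul])
  -- the weak neighbourhood on which the identity varies little
  have hball : (fun z : WeakSpace 𝕜 (StrongDual 𝕜 X) => (toWeakSpace 𝕜 (StrongDual 𝕜 X)).symm z) ⁻¹'
      (ball a (1 / 8)) ∈ 𝓝[toWeakSpace 𝕜 (StrongDual 𝕜 X) '' D]
        (toWeakSpace 𝕜 (StrongDual 𝕜 X) a) :=
    hacont (ball_mem_nhds _ (by norm_num))
  obtain ⟨U, hUo, haU, hUsub⟩ := mem_nhdsWithin.mp hball
  -- a point of the dense part inside `U`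
  have hUnorm : IsOpen ((toWeakSpaceCLM 𝕜 (StrongDual 𝕜 X)) ⁻¹' U) :=
    hUo.preimage (toWeakSpaceCLM 𝕜 (StrongDual 𝕜 X)).continuous
  obtain ⟨_, hdU, ⟨h, hh, rfl⟩⟩ := mem_closure_iff.mp haD _ hUnorm haU
  -- the perturbed points
  obtain ⟨cr, hcr⟩ : ∃ cr : ℕ → ℝ, ∀ k, mean 𝕜 (h * rad 𝕜 k) = ((cr k : ℝ) : 𝕜) := by
    have : ∀ k, ∃ r : ℝ, mean 𝕜 (h * rad 𝕜 k) = ((r : ℝ) : 𝕜) := by
      intro k
      apply mean_isReal
      intro j
      obtain ⟨r, -, hr⟩ := hh.1 j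
      exact ⟨r * sgn k j, by rw [BoundedContinuousFunction.mul_apply, hr, rad_apply]; push_cast; rfl⟩
    choose cr hcr using this
    exact ⟨cr, hcr⟩
  have hcr0 : Tendsto cr atTop (𝓝 0) := by
    have h1 := hcoef h
    rw [tendsto_zero_iff_norm_tendsto_zero] at h1 ⊢
    refine h1.congr (fun k => ?_)
    rw [hcr, RCLike.norm_ofReal, Real.norm_eq_abs]
  have hinv : ∀ k, 0 < 1 + cr k →
      (((1 + cr k)⁻¹ : ℝ) : 𝕜) * (1 + ((cr k : ℝ) : 𝕜)) = 1 := by
    intro k hpos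
    have h1 : (1 : 𝕜) + ((cr k : ℝ) : 𝕜) = ((1 + cr k : ℝ) : 𝕜) := by push_cast; rfl
    rw [h1, ← RCLike.ofReal_mul, inv_mul_cancel₀ hpos.ne', RCLike.ofReal_one]
  let hk : ℕ → Bd 𝕜 := fun k => (((1 + cr k)⁻¹ : ℝ) : 𝕜) • (h * (1 + rad 𝕜 k))
  have hkH : ∀ k, |cr k| < 1 / 2 → hk k ∈ H := by
    intro k hk2
    have hpos : 0 < 1 + cr k := by
      have := (abs_lt.mp hk2).1
      linarith
    refine ⟨fun j => ?_, ?_⟩
    · obtain ⟨r, hr0, hr⟩ := hh.1 j
      have hs : 0 ≤ 1 + sgn k j := by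
        have := (abs_le.mp (abs_sgn k j).le).1
        linarith
      refine ⟨(1 + cr k)⁻¹ * (r * (1 + sgn k j)), by positivity, ?_⟩
      simp only [hk, BoundedContinuousFunction.coe_smul, BoundedContinuousFunction.mul_apply,
        BoundedContinuousFunction.coe_add, Pi.add_apply, smul_eq_mul, hr, rad_apply,
        BoundedContinuousFunction.coe_one, Pi.one_apply]
      push_cast
      ring
    · simp only [hk]
      rw [map_smul, mul_add, mul_one, map_add, hh.2, hcr, smul_eq_mul, hinv k hpos]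
  have hTk : ∀ k, opT G (hk k) = (((1 + cr k)⁻¹ : ℝ) : 𝕜) • (opT G h + opT G (h * rad 𝕜 k)) := by
    intro k
    simp only [hk]
    rw [map_smul, mul_add, mul_one, map_add]
  have hconv : Tendsto (fun k => toWeakSpace 𝕜 (StrongDual 𝕜 X) (opT G (hk k))) atTop
      (𝓝 (toWeakSpace 𝕜 (StrongDual 𝕜 X) (opT G h))) := by
    refine (WeakBilin.tendsto_iff_forall_eval_tendsto
      (topDualPairing 𝕜 (StrongDual 𝕜 X)).flip (by
      intro x y hxy
      apply (NormedSpace.inclusionInDoubleDualLi (𝕜 := 𝕜) (E := StrongDual 𝕜 X)).injective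
      ext φ
      exact LinearMap.congr_fun hxy φ)).mpr ?_
    intro φ
    change Tendsto (fun k => φ (opT G (hk k))) atTop (𝓝 (φ (opT G h)))
    simp_rw [hTk, map_smul, map_add]
    have h1 : Tendsto (fun k => (((1 + cr k)⁻¹ : ℝ) : 𝕜)) atTop (𝓝 ((((1 + 0)⁻¹ : ℝ)) : 𝕜)) := by
      refine (RCLike.continuous_ofReal.tendsto _).comp ?_
      exact (tendsto_const_nhds.add hcr0).inv₀ (by norm_num)
    have h2 := h1.smul ((tendsto_const_nhds (x := φ (opT G h))).add (hweak h φ))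
    simpa using h2
  have hevU : ∀ᶠ k in atTop, toWeakSpace 𝕜 (StrongDual 𝕜 X) (opT G (hk k)) ∈ U :=
    hconv.eventually (hUo.mem_nhds hdU)
  have hevc : ∀ᶠ k in atTop, |cr k| < 1 / 2 := by
    have := hcr0.eventually (Metric.ball_mem_nhds 0 (by norm_num : (0 : ℝ) < 1 / 2))
    refine this.mono (fun k hk' => ?_)
    simpa [Real.dist_eq] using hk'
  obtain ⟨k, hkU, hkc⟩ := (hevU.and hevc).exists
  have hmem1 : opT G (hk k) ∈ ball a (1 / 8) :=
    hUsub ⟨hkU, ⟨_, subset_closure ⟨_, hkH k hkc, rfl⟩, rfl⟩⟩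
  have hmem2 : opT G h ∈ ball a (1 / 8) :=
    hUsub ⟨hdU, ⟨_, subset_closure ⟨_, hh, rfl⟩, rfl⟩⟩
  have hpos : 0 < 1 + cr k := by
    have := (abs_lt.mp hkc).1
    linarith
  have hval1 : opT G h (y k) = ((cr k : ℝ) : 𝕜) := by
    rw [opT_apply, hGy, hcr]
  have hval2 : opT G (hk k) (y k) = 1 := by
    rw [opT_apply, hGy]
    simp only [hk]
    rw [smul_mul_assoc, map_smul, mul_assoc, add_mul, one_mul, rad_mul_self, mul_add, mul_one,
      map_add, hh.2, hcr, smul_eq_mul, add_comm ((cr k : ℝ) : 𝕜) 1, hinv k hpos]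
  have hdist : ‖opT G (hk k) - opT G h‖ < 1 / 4 := by
    rw [← dist_eq_norm]
    have h1 := mem_ball.mp hmem1
    have h2 := mem_ball'.mp hmem2
    have h3 := dist_triangle (opT G (hk k)) a (opT G h)
    linarith
  have hlowb : 1 / 2 < ‖opT G (hk k) - opT G h‖ := by
    have h1 : ‖(opT G (hk k) - opT G h) (y k)‖ ≤ ‖opT G (hk k) - opT G h‖ := by
      have := (opT G (hk k) - opT G h).le_opNorm (y k)
      have h2 := mul_le_mul_of_nonneg_left (hy k) (norm_nonneg (opT G (hk k) - opT G h))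
      linarith
    have h2 : (opT G (hk k) - opT G h) (y k) = ((1 - cr k : ℝ) : 𝕜) := by
      rw [_root_.sub_apply, hval1, hval2]
      push_cast
      rfl
    rw [h2, RCLike.norm_ofReal] at h1
    have h3 := (abs_lt.mp hkc).2
    have h4 := le_abs_self (1 - cr k)
    linarith
  linarith

end Pool.Agent.SuperADP
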