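import Pool.Agent.SuperADP.Slices

set_option autoImplicit false

namespace Pool.Agent.SuperADP

open Filter Topology Metric

/-- Colour fixing (a one-dimensional Halpern-Lauchli argument): if finite families below `A` can
always be handled with colours from a finite set, then below some `A'` a single colour works. -/
lemma exists_color {Y C S : Type*} [Preorder S] (R : Y → C → S → Prop)
    (hmono : ∀ y c A B, A ≤ B → R y c A → R y c B) (Q : Finset C) :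
    ∀ (A : S), (∀ F : Finset S, (∀ B ∈ F, B ≤ A) → ∃ y, ∀ B ∈ F, ∃ c ∈ Q, R y c B) →
    ∃ c ∈ Q, ∃ A' ≤ A, ∀ F : Finset S, (∀ B ∈ F, B ≤ A') → ∃ y, ∀ B ∈ F, R y c B := by
  classical
  induction Q using Finset.induction_on with
  | empty =>
    intro A h
    obtain ⟨y, hy⟩ := h {A} (by simp)
    obtain ⟨c, hc, -⟩ := hy A (by simp)
    simp at hc
  | insert p Q hp ih =>
    intro A h
    by_cases hgood : ∃ A' ≤ A, ∀ F : Finset S, (∀ B ∈ F, B ≤ A') → ∃ y, ∀ B ∈ F, R y p B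
    · obtain ⟨A', hA', hF⟩ := hgood
      exact ⟨p, Finset.mem_insert_self _ _, A', hA', hF⟩
    · push Not at hgood
      have hbad : ∀ A' : S, ∃ F : Finset S, A' ≤ A → (∀ B ∈ F, B ≤ A') ∧ ∀ y, ∃ B ∈ F, ¬ R y p B := by
        intro A'
        by_cases hA' : A' ≤ A
        · obtain ⟨F, hF1, hF2⟩ := hgood A' hA'
          exact ⟨F, fun _ => ⟨hF1, hF2⟩⟩
        · exact ⟨∅, fun h => absurd h hA'⟩
      choose G hG using hbad
      obtain ⟨c, hc, A', hA', hF⟩ := ih A (by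
        intro F hF
        obtain ⟨y, hy⟩ := h (F.biUnion G) (by
          intro B hB
          obtain ⟨D, hD, hBD⟩ := Finset.mem_biUnion.mp hB
          exact ((hG D (hF D hD)).1 B hBD).trans (hF D hD))
        refine ⟨y, fun D hD => ?_⟩
        obtain ⟨hD1, hD2⟩ := hG D (hF D hD)
        obtain ⟨B, hB, hnR⟩ := hD2 y
        obtain ⟨c, hc, hR⟩ := hy B (Finset.mem_biUnion.mpr ⟨D, hD, hB⟩)
        rcases Finset.mem_insert.mp hc with rfl | hc
        · exact absurd hR hnR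
        · exact ⟨c, hc, hmono _ _ _ _ (hD1 B hB) hR⟩)
      exact ⟨c, Finset.mem_insert_of_mem hc, A', hA', hF⟩

variable {𝕜 X : Type*} [RCLike 𝕜] [NormedAddCommGroup X] [NormedSpace 𝕜 X]

variable (𝕜 X) in
/-- The ordered set of slices. -/
abbrev Slices : Type _ := {A : Set (StrongDual 𝕜 X) // IsSlice A}

/-- `Spl y c A`: the slice `A` contains a slice on which the value at `y` is close to `c.1` and a
slice on which it is close to `c.2`. -/
def Spl (ε : ℝ) (y : X) (c : 𝕜 × 𝕜) (A : Slices 𝕜 X) : Prop :=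
  ∃ A₀ A₁ : Slices 𝕜 X, A₀ ≤ A ∧ A₁ ≤ A ∧ (∀ f ∈ A₀.1, ‖f y - c.1‖ ≤ ε) ∧
    (∀ f ∈ A₁.1, ‖f y - c.2‖ ≤ ε)

lemma Spl.mono {ε : ℝ} {y : X} {c : 𝕜 × 𝕜} {A B : Slices 𝕜 X} (hAB : A ≤ B)
    (h : Spl ε y c A) : Spl ε y c B := by
  obtain ⟨A₀, A₁, h0, h1, h2, h3⟩ := h
  exact ⟨A₀, A₁, h0.trans hAB, h1.trans hAB, h2, h3⟩

/-- A finite net in the ball of radius two. -/
lemma exists_net (𝕜 : Type*) [RCLike 𝕜] {ε : ℝ} (hε : 0 < ε) :
    ∃ N : Finset 𝕜, ∀ v : 𝕜, ‖v‖ ≤ 2 → ∃ w ∈ N, ‖v - w‖ ≤ ε := by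
  obtain ⟨t, -, ht, hcov⟩ := (isCompact_closedBall (0 : 𝕜) 2).finite_cover_balls hε
  refine ⟨ht.toFinset, fun v hv => ?_⟩
  have hv' : v ∈ closedBall (0 : 𝕜) 2 := by simpa using hv
  obtain ⟨w, hw, hvw⟩ := Set.mem_iUnion₂.mp (hcov hv')
  refine ⟨w, ht.mem_toFinset.mpr hw, ?_⟩
  rw [mem_ball, dist_eq_norm] at hvw
  exact hvw.le

/-- The main splitting step. -/
lemma HasSuperADP.split (h : HasSuperADP 𝕜 X) (hX : ¬ FiniteDimensional 𝕜 X) {N : Finset 𝕜}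
    (hN : ∀ v : 𝕜, ‖v‖ ≤ 2 → ∃ w ∈ N, ‖v - w‖ ≤ 1 / 64) (F : Finset (Slices 𝕜 X)) :
    ∃ y : X, ‖y‖ ≤ 1 ∧ ∀ A ∈ F, ∃ c : 𝕜 × 𝕜, c ∈ N ×ˢ N ∧ 1 / 2 ≤ ‖c.2 - c.1‖ ∧
      Spl (1 / 32) y c A := by
  classical
  -- data of the slices
  have hdata : ∀ A : Slices 𝕜 X, ∃ x : X, ∃ δ : ℝ, ‖x‖ = 1 ∧ 0 < δ ∧ A.1 = Sl x δ := by
    intro A
    obtain ⟨x, hx, δ, hδ, hA⟩ := A.2
    exact ⟨x, δ, hx, hδ, hA⟩
  choose x δ hx hδ hA using hdata
  have hg : ∀ A : Slices 𝕜 X, ∃ g : StrongDual 𝕜 X, ‖g‖ ≤ 1 ∧ g (x A) = 1 := by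
    intro A
    obtain ⟨g, hg, hgx⟩ := exists_norming (𝕜 := 𝕜) (x A)
    exact ⟨g, hg, by rw [hgx, hx A]; simp⟩
  choose g hg1 hgx using hg
  -- a common lower bound for the widths
  obtain ⟨η, hη, hη16, hηδ⟩ : ∃ η : ℝ, 0 < η ∧ η ≤ 1 / 16 ∧ ∀ A ∈ F, 2 * η ≤ δ A := by
    by_cases hF : F.Nonempty
    · obtain ⟨A₀, hA₀, hmin⟩ := F.exists_min_image δ hF
      refine ⟨min (δ A₀ / 2) (1 / 16), lt_min (half_pos (hδ A₀)) (by norm_num), min_le_right _ _,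
        fun A hAF => ?_⟩
      have := min_le_left (δ A₀ / 2) (1 / 16)
      have := hmin A hAF
      linarith
    · rw [Finset.not_nonempty_iff_eq_empty] at hF
      subst hF
      exact ⟨1 / 16, by norm_num, le_rfl, by simp⟩
  let U : Set (WeakSpace 𝕜 X) :=
    ⋂ A ∈ F, {z : WeakSpace 𝕜 X | ‖g A ((toWeakSpace 𝕜 X).symm z)‖ < 1 / 16}
  have hU : IsOpen U := isOpen_biInter_finset fun A _ => isOpen_eval' (g A) _
  obtain ⟨y, hy, hyU, hys⟩ := h.exists_multi hX (F.image x) (by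
    intro z hz
    obtain ⟨A, -, rfl⟩ := Finset.mem_image.mp hz
    exact hx A) hη U hU 0 (by simp) (by simp [U])
  refine ⟨y, hy, fun A hAF => ?_⟩
  obtain ⟨θ, hθ, hlt⟩ := hys (x A) (Finset.mem_image_of_mem _ hAF)
  have hgy : ‖g A y‖ < 1 / 16 := by
    have := Set.mem_iInter₂.mp hyU A hAF
    simpa using this
  have hreθ : ∀ f : StrongDual 𝕜 X, ‖f‖ ≤ 1 → RCLike.re (f (θ • y)) ≤ 1 := by
    intro f hf
    refine (re_le_norm_of f hf _).trans ?_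
    rw [norm_smul, hθ, one_mul]
    exact hy
  have hrex : ∀ f : StrongDual 𝕜 X, ‖f‖ ≤ 1 → RCLike.re (f (x A)) ≤ 1 := fun f hf =>
    (re_le_norm_of f hf _).trans (hx A).le
  -- the slice where the value is large
  have hne1 : x A + θ • y ≠ 0 := by
    intro h0
    rw [h0, norm_zero] at hlt
    linarith
  have hs1 : IsSlice (Sl (𝕜 := 𝕜) (x A + θ • y) η) := isSlice_sl hne1 hη
  obtain ⟨B₁, hB₁, hsub₁, v₁, hv₁⟩ := osc hs1 y hy (η := 1 / 64) (by norm_num)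
  have hB₁A : B₁ ⊆ A.1 := by
    intro f hf
    obtain ⟨hf1, hf2⟩ := hsub₁ hf
    rw [hA A]
    refine ⟨hf1, ?_⟩
    rw [map_add, map_add] at hf2
    have := hreθ f hf1
    have := hηδ A hAF
    rw [hx A]
    linarith
  have hB₁v : ∀ f ∈ B₁, 7 / 8 ≤ RCLike.re (f (θ • y)) := by
    intro f hf
    obtain ⟨hf1, hf2⟩ := hsub₁ hf
    rw [map_add, map_add] at hf2
    have := hrex f hf1
    linarith
  -- the slice where the value is small
  let t : ℝ := min (δ A / 8) (1 / 4)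
  have ht : 0 < t := lt_min (by have := hδ A; positivity) (by norm_num)
  have ht1 : t ≤ δ A / 8 := min_le_left _ _
  have ht2 : t ≤ 1 / 4 := min_le_right _ _
  have hδ' : 0 < t / 16 := by positivity
  have hlow : 1 - t / 16 ≤ ‖x A - (t : 𝕜) • (θ • y)‖ := by
    have h1 : RCLike.re (g A (x A - (t : 𝕜) • (θ • y))) = 1 - t * RCLike.re (g A (θ • y)) := by
      rw [map_sub, hgx, map_smul, smul_eq_mul, map_sub, RCLike.re_ofReal_mul, RCLike.one_re]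
    have h2 : RCLike.re (g A (θ • y)) ≤ 1 / 16 := by
      refine (RCLike.re_le_norm _).trans ?_
      rw [map_smul, smul_eq_mul, norm_mul, hθ, one_mul]
      exact hgy.le
    have h3 := re_le_norm_of (g A) (hg1 A) (x A - (t : 𝕜) • (θ • y))
    rw [h1] at h3
    nlinarith
  have hne0 : x A - (t : 𝕜) • (θ • y) ≠ 0 := by
    intro h0
    rw [h0, norm_zero] at hlow
    linarith
  have hs0 : IsSlice (Sl (𝕜 := 𝕜) (x A - (t : 𝕜) • (θ • y)) (t / 16)) := isSlice_sl hne0 hδ'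
  obtain ⟨B₀, hB₀, hsub₀, v₀, hv₀⟩ := osc hs0 y hy (η := 1 / 64) (by norm_num)
  have hre0 : ∀ f : StrongDual 𝕜 X, RCLike.re (f (x A - (t : 𝕜) • (θ • y))) =
      RCLike.re (f (x A)) - t * RCLike.re (f (θ • y)) := by
    intro f
    rw [map_sub, map_smul, smul_eq_mul, map_sub, RCLike.re_ofReal_mul]
  have hB₀A : B₀ ⊆ A.1 := by
    intro f hf
    obtain ⟨hf1, hf2⟩ := hsub₀ hf
    rw [hA A]
    refine ⟨hf1, ?_⟩
    rw [hre0] at hf2
    have h1 : -1 ≤ RCLike.re (f (θ • y)) := by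
      have := hreθ (-f) (by rwa [norm_neg])
      simp only [neg_apply, map_neg] at this
      linarith
    rw [hx A]
    nlinarith [hδ A]
  have hB₀v : ∀ f ∈ B₀, RCLike.re (f (θ • y)) ≤ 1 / 8 := by
    intro f hf
    obtain ⟨hf1, hf2⟩ := hsub₀ hf
    rw [hre0] at hf2
    have := hrex f hf1
    have h3 : t * RCLike.re (f (θ • y)) ≤ t * (1 / 8) := by linarith
    exact le_of_mul_le_mul_left h3 ht
  obtain ⟨f₁, hf₁⟩ := hB₁.nonempty
  obtain ⟨f₀, hf₀⟩ := hB₀.nonempty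
  have hnv : ∀ (B : Set (StrongDual 𝕜 X)) (_ : IsSlice B) (v : 𝕜)
      (_ : ∀ f ∈ B, ‖f y - v‖ ≤ 1 / 64) , ‖v‖ ≤ 2 := by
    intro B hB v hv
    obtain ⟨f, hf⟩ := hB.nonempty
    have h1 := hv f hf
    have h2 : ‖f y‖ ≤ 1 := (norm_le_of f (hB.norm_le hf) y).trans hy
    have h3 : ‖v‖ ≤ ‖f y‖ + ‖f y - v‖ := by
      have : v = f y - (f y - v) := by ring
      calc ‖v‖ = ‖f y - (f y - v)‖ := by rw [← this]
        _ ≤ _ := norm_sub_le _ _
    linarith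
  obtain ⟨w₁, hw₁, hvw₁⟩ := hN v₁ (hnv B₁ hB₁ v₁ hv₁)
  obtain ⟨w₀, hw₀, hvw₀⟩ := hN v₀ (hnv B₀ hB₀ v₀ hv₀)
  have hclose₁ : ∀ f ∈ B₁, ‖f y - w₁‖ ≤ 1 / 32 := by
    intro f hf
    have : f y - w₁ = (f y - v₁) + (v₁ - w₁) := by ring
    rw [this]
    have h1 := hv₁ f hf
    refine (norm_add_le _ _).trans ?_
    linarith
  have hclose₀ : ∀ f ∈ B₀, ‖f y - w₀‖ ≤ 1 / 32 := by
    intro f hf
    have : f y - w₀ = (f y - v₀) + (v₀ - w₀) := by ring
    rw [this]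
    have h1 := hv₀ f hf
    refine (norm_add_le _ _).trans ?_
    linarith
  refine ⟨(w₀, w₁), Finset.mem_product.mpr ⟨hw₀, hw₁⟩, ?_, ⟨B₀, hB₀⟩, ⟨B₁, hB₁⟩, hB₀A, hB₁A,
    hclose₀, hclose₁⟩
  -- separation of the values
  have e1 := hclose₁ f₁ hf₁
  have e0 := hclose₀ f₀ hf₀
  have r1 := hB₁v f₁ hf₁
  have r0 := hB₀v f₀ hf₀
  have h1 : 3 / 4 ≤ ‖f₁ y - f₀ y‖ := by
    have h2 : RCLike.re (f₁ (θ • y)) - RCLike.re (f₀ (θ • y)) ≤ ‖f₁ y - f₀ y‖ := by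
      rw [← map_sub, map_smul, map_smul, ← smul_sub, smul_eq_mul]
      refine (RCLike.re_le_norm _).trans ?_
      rw [norm_mul, hθ, one_mul]
    linarith
  have h2 : f₁ y - f₀ y = (w₁ - w₀) + ((f₁ y - w₁) - (f₀ y - w₀)) := by ring
  rw [h2] at h1
  have h3 := norm_add_le (w₁ - w₀) ((f₁ y - w₁) - (f₀ y - w₀))
  have h4 := norm_sub_le (f₁ y - w₁) (f₀ y - w₀)
  simp only
  linarith

/-- Independent sequences from the super alternative Daugavet property. -/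
theorem HasSuperADP.exists_independent (h : HasSuperADP 𝕜 X) (hX : ¬ FiniteDimensional 𝕜 X) :
    ∃ (v₀ v₁ : 𝕜) (y : ℕ → X), 1 / 2 ≤ ‖v₁ - v₀‖ ∧ (∀ n, ‖y n‖ ≤ 1) ∧
      ∀ (n : ℕ) (s : ℕ → Bool), ∃ f : StrongDual 𝕜 X, ‖f‖ ≤ 1 ∧
        ∀ i < n, ‖f (y i) - (if s i then v₁ else v₀)‖ ≤ 1 / 32 := by
  classical
  obtain ⟨N, hN⟩ := exists_net 𝕜 (ε := 1 / 64) (by norm_num)
  -- some slice
  obtain ⟨x₀, hx₀, -⟩ := meets_sphere (𝕜 := 𝕜) (X := X) hX isOpen_univ (y₀ := 0) (by simp)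
    (Set.mem_univ _)
  let A₀ : Slices 𝕜 X := ⟨Sl x₀ 1, x₀, hx₀, 1, one_pos, rfl⟩
  let Q : Finset (𝕜 × 𝕜) := (N ×ˢ N).filter fun c => 1 / 2 ≤ ‖c.2 - c.1‖
  obtain ⟨c, hc, A, -, hA⟩ := exists_color (Y := {y : X // ‖y‖ ≤ 1})
    (fun y c (A : Slices 𝕜 X) => Spl (1 / 32) y.1 c A)
    (fun y c A B hAB hR => Spl.mono hAB hR) Q A₀ (by
      intro F _
      obtain ⟨y, hy, hyF⟩ := h.split hX hN F
      refine ⟨⟨y, hy⟩, fun B hB => ?_⟩
      obtain ⟨c, hc1, hc2, hc3⟩ := hyF B hB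
      exact ⟨c, Finset.mem_filter.mpr ⟨hc1, hc2⟩, hc3⟩)
  have hcsep : 1 / 2 ≤ ‖c.2 - c.1‖ := (Finset.mem_filter.mp hc).2
  -- the step
  have hstep : ∀ (n : ℕ) (T : (Fin n → Bool) → {B : Slices 𝕜 X // B ≤ A}),
      ∃ (y : X) (T' : (Fin (n + 1) → Bool) → {B : Slices 𝕜 X // B ≤ A}), ‖y‖ ≤ 1 ∧
        ∀ s : Fin (n + 1) → Bool, (T' s).1 ≤ (T (Fin.init s)).1 ∧
          ∀ f ∈ (T' s).1.1, ‖f y - (if s (Fin.last n) then c.2 else c.1)‖ ≤ 1 / 32 := by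
    intro n T
    obtain ⟨y, hy⟩ := hA (Finset.univ.image fun s => (T s).1) (by
      intro B hB
      obtain ⟨s, -, rfl⟩ := Finset.mem_image.mp hB
      exact (T s).2)
    have hy' : ∀ s, Spl (1 / 32) y.1 c (T s).1 := fun s =>
      hy _ (Finset.mem_image_of_mem _ (Finset.mem_univ s))
    choose B₀ B₁ h0 h1 h2 h3 using hy'
    refine ⟨y.1, fun s => if s (Fin.last n) then ⟨B₁ (Fin.init s), (h1 _).trans (T _).2⟩ else
      ⟨B₀ (Fin.init s), (h0 _).trans (T _).2⟩, y.2, fun s => ?_⟩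
    by_cases hs : s (Fin.last n) = true
    · simp only [if_pos hs]
      exact ⟨h1 _, fun f hf => h3 _ f hf⟩
    · simp only [if_neg hs]
      exact ⟨h0 _, fun f hf => h2 _ f hf⟩
  choose Y T' hY hT' using hstep
  let Tr : (n : ℕ) → ((Fin n → Bool) → {B : Slices 𝕜 X // B ≤ A}) := fun n =>
    Nat.rec (fun _ => ⟨A, le_rfl⟩) (fun n T => T' n T) n
  have hTr : ∀ n, Tr (n + 1) = T' n (Tr n) := fun n => rfl
  let y : ℕ → X := fun n => Y n (Tr n)
  have key : ∀ (n : ℕ) (s : Fin n → Bool), ∀ f ∈ (Tr n s).1.1, ∀ i : Fin n,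
      ‖f (y i) - (if s i then c.2 else c.1)‖ ≤ 1 / 32 := by
    intro n
    induction n with
    | zero =>
      intro s f hf i
      exact i.elim0
    | succ n ih =>
      intro s f hf i
      rw [hTr] at hf
      obtain ⟨k1, k2⟩ := hT' n (Tr n) s
      refine Fin.lastCases ?_ (fun j => ?_) i
      · exact k2 f hf
      · exact ih (Fin.init s) f (k1 hf) j
  refine ⟨c.1, c.2, y, hcsep, fun n => hY n _, fun n s => ?_⟩
  obtain ⟨f, hf⟩ := (Tr n fun i => s i).1.2.nonempty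
  exact ⟨f, (Tr n fun i => s i).1.2.norm_le hf, fun i hi => key n _ f hf ⟨i, hi⟩⟩

/-- A subset on which a finite family of scalars has large sum. -/
lemma exists_large_subsum (a : ℕ → 𝕜) (n : ℕ) :
    ∃ P : Finset ℕ, P ⊆ Finset.range n ∧
      (∑ i ∈ Finset.range n, ‖a i‖) / 4 ≤ ‖∑ i ∈ P, a i‖ := by
  classical
  have hI : ‖(RCLike.I : 𝕜)‖ ≤ 1 := by
    rcases RCLike.I_mul_I (K := 𝕜) with h | h
    · rw [h]; simp
    · have : ‖(RCLike.I : 𝕜)‖ * ‖(RCLike.I : 𝕜)‖ = 1 := by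
        rw [← norm_mul, h]; simp
      nlinarith [norm_nonneg (RCLike.I : 𝕜)]
  -- general bound for one real functional
  have hgen : ∀ L : 𝕜 → ℝ, (∀ z, L z ≤ ‖z‖) → (∀ (s : Finset ℕ), L (∑ i ∈ s, a i) = ∑ i ∈ s, L (a i)) →
      (∑ i ∈ Finset.range n, ‖a i‖) / 4 ≤ ∑ i ∈ Finset.range n, max (L (a i)) 0 →
      ∃ P : Finset ℕ, P ⊆ Finset.range n ∧
      (∑ i ∈ Finset.range n, ‖a i‖) / 4 ≤ ‖∑ i ∈ P, a i‖ := by
    intro L hL hadd hle
    refine ⟨(Finset.range n).filter fun i => 0 < L (a i), Finset.filter_subset _ _, ?_⟩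
    refine hle.trans ?_
    refine le_trans ?_ (hL _)
    rw [hadd, Finset.sum_filter]
    apply Finset.sum_le_sum
    intro i _
    split_ifs with h
    · rw [max_eq_left h.le]
    · rw [max_eq_right (not_lt.mp h)]
  have hsum : ∑ i ∈ Finset.range n, ‖a i‖ ≤
      ∑ i ∈ Finset.range n, max (RCLike.re (a i)) 0 +
      ∑ i ∈ Finset.range n, max (-RCLike.re (a i)) 0 +
      ∑ i ∈ Finset.range n, max (RCLike.im (a i)) 0 +
      ∑ i ∈ Finset.range n, max (-RCLike.im (a i)) 0 := by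
    rw [← Finset.sum_add_distrib, ← Finset.sum_add_distrib, ← Finset.sum_add_distrib]
    apply Finset.sum_le_sum
    intro i _
    have h1 : ‖a i‖ ≤ |RCLike.re (a i)| + |RCLike.im (a i)| := by
      conv_lhs => rw [← RCLike.re_add_im (a i)]
      refine (norm_add_le _ _).trans ?_
      rw [norm_mul, RCLike.norm_ofReal, RCLike.norm_ofReal]
      have : |RCLike.im (a i)| * ‖(RCLike.I : 𝕜)‖ ≤ |RCLike.im (a i)| * 1 := by gcongr
      linarith
    have h2 : ∀ r : ℝ, |r| = max r 0 + max (-r) 0 := by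
      intro r
      rcases le_total 0 r with hr | hr
      · rw [abs_of_nonneg hr, max_eq_left hr, max_eq_right (by linarith)]; ring
      · rw [abs_of_nonpos hr, max_eq_right hr, max_eq_left (by linarith)]; ring
    rw [h2, h2] at h1
    linarith
  by_cases c1 : (∑ i ∈ Finset.range n, ‖a i‖) / 4 ≤ ∑ i ∈ Finset.range n, max (RCLike.re (a i)) 0
  · exact hgen (fun z => RCLike.re z) (fun z => RCLike.re_le_norm z) (fun s => map_sum _ _ _) c1
  by_cases c2 : (∑ i ∈ Finset.range n, ‖a i‖) / 4 ≤ ∑ i ∈ Finset.range n, max (-RCLike.re (a i)) 0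
  · refine hgen (fun z => -RCLike.re z) (fun z => ?_) (fun s => ?_) c2
    · have := RCLike.re_le_norm (-z)
      simpa using this
    · rw [map_sum, Finset.sum_neg_distrib]
  by_cases c3 : (∑ i ∈ Finset.range n, ‖a i‖) / 4 ≤ ∑ i ∈ Finset.range n, max (RCLike.im (a i)) 0
  · exact hgen (fun z => RCLike.im z) (fun z => (le_abs_self _).trans (RCLike.abs_im_le_norm z))
      (fun s => map_sum _ _ _) c3
  by_cases c4 : (∑ i ∈ Finset.range n, ‖a i‖) / 4 ≤ ∑ i ∈ Finset.range n, max (-RCLike.im (a i)) 0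
  · refine hgen (fun z => -RCLike.im z) (fun z => ?_) (fun s => ?_) c4
    · exact (neg_le_abs _).trans (RCLike.abs_im_le_norm z)
    · rw [map_sum, Finset.sum_neg_distrib]
  exfalso
  linarith

/-- The lower `ℓ₁` estimate. -/
theorem HasSuperADP.exists_ell1_sequence (h : HasSuperADP 𝕜 X) (hX : ¬ FiniteDimensional 𝕜 X) :
    ∃ y : ℕ → X, (∀ n, ‖y n‖ ≤ 1) ∧ ∀ (n : ℕ) (a : ℕ → 𝕜),
      1 / 32 * ∑ i ∈ Finset.range n, ‖a i‖ ≤ ‖∑ i ∈ Finset.range n, a i • y i‖ := by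
  classical
  obtain ⟨v₀, v₁, y, hsep, hy, hind⟩ := h.exists_independent hX
  refine ⟨y, hy, fun n a => ?_⟩
  obtain ⟨P, hP, hlarge⟩ := exists_large_subsum a n
  obtain ⟨f, hf, hfy⟩ := hind n (fun i => decide (i ∈ P))
  obtain ⟨g, hg, hgy⟩ := hind n (fun _ => false)
  set z := ∑ i ∈ Finset.range n, a i • y i with hz
  have h1 : f z - g z = (v₁ - v₀) * ∑ i ∈ P, a i + ∑ i ∈ Finset.range n,
      a i * ((f (y i) - (if decide (i ∈ P) then v₁ else v₀)) - (g (y i) - v₀)) := by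
    have e1 : ∑ i ∈ P, a i = ∑ i ∈ Finset.range n, if i ∈ P then a i else 0 := by
      rw [← Finset.sum_filter]
      congr 1
      ext i
      simp only [Finset.mem_filter]
      exact ⟨fun hi => ⟨hP hi, hi⟩, fun hi => hi.2⟩
    rw [e1, Finset.mul_sum, ← Finset.sum_add_distrib, hz, map_sum, map_sum,
      ← Finset.sum_sub_distrib]
    apply Finset.sum_congr rfl
    intro i _
    rw [map_smul, map_smul, smul_eq_mul, smul_eq_mul]
    by_cases hi : i ∈ P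
    · simp only [hi, decide_true, if_true]; ring
    · simp only [hi, decide_false, if_false, Bool.false_eq_true]; ring
  have h2 : ‖∑ i ∈ Finset.range n,
      a i * ((f (y i) - (if decide (i ∈ P) then v₁ else v₀)) - (g (y i) - v₀))‖ ≤
      1 / 16 * ∑ i ∈ Finset.range n, ‖a i‖ := by
    refine (norm_sum_le _ _).trans ?_
    rw [Finset.mul_sum]
    apply Finset.sum_le_sum
    intro i hi
    have hi' := Finset.mem_range.mp hi
    rw [norm_mul]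
    have e1 := hfy i hi'
    have e2 : ‖g (y i) - v₀‖ ≤ 1 / 32 := by simpa using hgy i hi'
    have e3 := norm_sub_le (f (y i) - (if decide (i ∈ P) then v₁ else v₀)) (g (y i) - v₀)
    have e4 : ‖(f (y i) - (if decide (i ∈ P) then v₁ else v₀)) - (g (y i) - v₀)‖ ≤ 1 / 16 := by
      linarith
    calc ‖a i‖ * ‖(f (y i) - (if decide (i ∈ P) then v₁ else v₀)) - (g (y i) - v₀)‖
        ≤ ‖a i‖ * (1 / 16) := by gcongr
      _ = 1 / 16 * ‖a i‖ := by ring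
  have h3 : ‖f z - g z‖ ≤ 2 * ‖z‖ := by
    refine (norm_sub_le _ _).trans ?_
    have := norm_le_of f hf z
    have := norm_le_of g hg z
    linarith
  have h4 : 1 / 2 * ((∑ i ∈ Finset.range n, ‖a i‖) / 4) ≤ ‖(v₁ - v₀) * ∑ i ∈ P, a i‖ := by
    rw [norm_mul]
    have hnn : 0 ≤ (∑ i ∈ Finset.range n, ‖a i‖) / 4 := by positivity
    gcongr
  set E := ∑ i ∈ Finset.range n,
      a i * ((f (y i) - (if decide (i ∈ P) then v₁ else v₀)) - (g (y i) - v₀)) with hE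
  have h5 : ‖(v₁ - v₀) * ∑ i ∈ P, a i‖ ≤ ‖f z - g z‖ + ‖E‖ := by
    have h6 : (v₁ - v₀) * ∑ i ∈ P, a i = (f z - g z) - E := by
      rw [h1]; ring
    rw [h6]
    exact norm_sub_le _ _
  linarith

end Pool.Agent.SuperADP
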