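import Pool.Agent.SuperADP.Ell1

set_option autoImplicit false

namespace Pool.Agent.SuperADP

open Filter Topology Metric

variable {𝕜 X : Type*} [RCLike 𝕜] [NormedAddCommGroup X] [NormedSpace 𝕜 X]

lemma lp1_hasSum (a : lp (fun _ : ℕ => 𝕜) 1) : HasSum (fun n => ‖a n‖) ‖a‖ := by
  have h := lp.hasSum_norm (p := 1) (by simp) a
  simpa using h

lemma lp1_smul_summable [CompleteSpace X] {y : ℕ → X} (hy : ∀ n, ‖y n‖ ≤ 1)
    (a : lp (fun _ : ℕ => 𝕜) 1) : Summable (fun n => a n • y n) := by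
  refine Summable.of_norm_bounded (lp1_hasSum a).summable (fun n => ?_)
  rw [norm_smul]
  have := mul_le_mul_of_nonneg_left (hy n) (norm_nonneg (a n))
  simpa using this

/-- The operator from `ℓ₁` determined by a bounded sequence. -/
noncomputable def opOf [CompleteSpace X] (y : ℕ → X) (hy : ∀ n, ‖y n‖ ≤ 1) :
    lp (fun _ : ℕ => 𝕜) 1 →L[𝕜] X :=
  LinearMap.mkContinuous
    { toFun := fun a => ∑' n, a n • y n
      map_add' := fun a b => by
        rw [← (lp1_smul_summable hy a).tsum_add (lp1_smul_summable hy b)]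
        congr 1
        ext n
        simp [add_smul]
      map_smul' := fun c a => by
        simp only [RingHom.id_apply]
        rw [← (lp1_smul_summable hy a).tsum_const_smul]
        congr 1
        ext n
        simp [mul_smul] } 1
    (fun a => by
      simp only [LinearMap.coe_mk, AddHom.coe_mk, one_mul]
      refine tsum_of_norm_bounded (lp1_hasSum a) (fun n => ?_)
      rw [norm_smul]
      have := mul_le_mul_of_nonneg_left (hy n) (norm_nonneg (a n))
      simpa using this)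

lemma opOf_apply [CompleteSpace X] (y : ℕ → X) (hy : ∀ n, ‖y n‖ ≤ 1)
    (a : lp (fun _ : ℕ => 𝕜) 1) : opOf y hy a = ∑' n, a n • y n := rfl

lemma opOf_lower [CompleteSpace X] (y : ℕ → X) (hy : ∀ n, ‖y n‖ ≤ 1) {c : ℝ}
    (hlow : ∀ (n : ℕ) (a : ℕ → 𝕜),
      c * ∑ i ∈ Finset.range n, ‖a i‖ ≤ ‖∑ i ∈ Finset.range n, a i • y i‖)
    (a : lp (fun _ : ℕ => 𝕜) 1) : c * ‖a‖ ≤ ‖opOf y hy a‖ := by
  have h1 : Tendsto (fun n => c * ∑ i ∈ Finset.range n, ‖a i‖) atTop (𝓝 (c * ‖a‖)) :=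
    (lp1_hasSum a).tendsto_sum_nat.const_mul c
  have h2 : Tendsto (fun n => ‖∑ i ∈ Finset.range n, a i • y i‖) atTop (𝓝 ‖opOf y hy a‖) := by
    rw [opOf_apply]
    exact (lp1_smul_summable hy a).hasSum.tendsto_sum_nat.norm
  exact le_of_tendsto_of_tendsto' h1 h2 (fun n => hlow n _)

/-- A bounded sequence with a lower `ℓ₁` estimate spans a copy of `ℓ₁`. -/
theorem containsEllOne_of_sequence [CompleteSpace X] {y : ℕ → X} (hy : ∀ n, ‖y n‖ ≤ 1) {c : ℝ}
    (hc : 0 < c) (hlow : ∀ (n : ℕ) (a : ℕ → 𝕜),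
      c * ∑ i ∈ Finset.range n, ‖a i‖ ≤ ‖∑ i ∈ Finset.range n, a i • y i‖) :
    ContainsEllOne 𝕜 X := by
  set T : lp (fun _ : ℕ => 𝕜) 1 →L[𝕜] X := opOf y hy with hT
  have hanti : AntilipschitzWith (Real.toNNReal c⁻¹) T := by
    refine ContinuousLinearMap.antilipschitz_of_bound T (K := Real.toNNReal c⁻¹) (fun a => ?_)
    rw [Real.coe_toNNReal _ (by positivity)]
    have := opOf_lower y hy hlow a
    rw [inv_mul_eq_div, le_div_iff₀ hc]
    linarith
  have hclosed : IsClosed (Set.range T) := hanti.isClosed_range T.uniformContinuous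
  refine ⟨LinearMap.range (T : lp (fun _ : ℕ => 𝕜) 1 →ₗ[𝕜] X), ?_, ⟨?_⟩⟩
  · rw [LinearMap.coe_range]
    exact hclosed
  · exact (T.equivRange hanti.injective hclosed).symm

end Pool.Agent.SuperADP
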