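import Pool.Agent.SuperADP.Embed

set_option autoImplicit false

namespace Pool.Agent.SuperADP

open Filter Topology Metric BoundedContinuousFunction

/-- Bounded scalar sequences. -/
abbrev Bd (𝕜 : Type*) [RCLike 𝕜] : Type _ := ℕ →ᵇ 𝕜

variable {𝕜 : Type*} [RCLike 𝕜]

/-- Average over the first `2 ^ n` terms. -/
noncomputable def avg (n : ℕ) (u : Bd 𝕜) : 𝕜 :=
  ((2 : 𝕜) ^ n)⁻¹ * ∑ j ∈ Finset.range (2 ^ n), u j

lemma norm_two_pow (n : ℕ) : ‖((2 : 𝕜) ^ n)⁻¹‖ = ((2 : ℝ) ^ n)⁻¹ := by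
  rw [norm_inv, norm_pow, RCLike.norm_two]

lemma norm_avg_le_sum (n : ℕ) (u : Bd 𝕜) :
    ‖avg n u‖ ≤ ((2 : ℝ) ^ n)⁻¹ * ∑ j ∈ Finset.range (2 ^ n), ‖u j‖ := by
  unfold avg
  rw [norm_mul, norm_two_pow]
  gcongr
  exact norm_sum_le _ _

lemma norm_avg_le (n : ℕ) (u : Bd 𝕜) : ‖avg n u‖ ≤ ‖u‖ := by
  refine (norm_avg_le_sum n u).trans ?_
  have h1 : ∑ j ∈ Finset.range (2 ^ n), ‖u j‖ ≤ 2 ^ n * ‖u‖ := by
    refine (Finset.sum_le_card_nsmul _ _ ‖u‖ fun j _ => u.norm_coe_le_norm j).trans ?_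
    rw [Finset.card_range, nsmul_eq_mul]
    push_cast
    exact le_rfl
  calc ((2 : ℝ) ^ n)⁻¹ * ∑ j ∈ Finset.range (2 ^ n), ‖u j‖ ≤ ((2 : ℝ) ^ n)⁻¹ * (2 ^ n * ‖u‖) := by
        gcongr
    _ = ‖u‖ := by
        rw [← mul_assoc, inv_mul_cancel₀ (by positivity), one_mul]

lemma avg_add (n : ℕ) (u v : Bd 𝕜) : avg n (u + v) = avg n u + avg n v := by
  unfold avg
  simp only [BoundedContinuousFunction.coe_add, Pi.add_apply]
  rw [Finset.sum_add_distrib, mul_add]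

lemma avg_smul (n : ℕ) (c : 𝕜) (u : Bd 𝕜) : avg n (c • u) = c * avg n u := by
  unfold avg
  simp only [BoundedContinuousFunction.coe_smul, smul_eq_mul]
  rw [← Finset.mul_sum]
  ring

lemma exists_mean (u : Bd 𝕜) :
    ∃ L : 𝕜, Tendsto (fun n => avg n u) (hyperfilter ℕ : Filter ℕ) (𝓝 L) := by
  have hK : IsCompact (closedBall (0 : 𝕜) ‖u‖) := isCompact_closedBall _ _
  obtain ⟨L, -, hL⟩ := hK.ultrafilter_le_nhds ((hyperfilter ℕ).map fun n => avg n u) (by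
    rw [Ultrafilter.coe_map, le_principal_iff, mem_map]
    refine univ_mem' (fun n => ?_)
    simp only [Set.mem_preimage, mem_closedBall, dist_zero_right]
    exact norm_avg_le n u)
  exact ⟨L, hL⟩

/-- A generalized limit of the averages. -/
noncomputable def meanFun (u : Bd 𝕜) : 𝕜 := Classical.choose (exists_mean u)

lemma tendsto_meanFun (u : Bd 𝕜) :
    Tendsto (fun n => avg n u) (hyperfilter ℕ : Filter ℕ) (𝓝 (meanFun u)) :=
  Classical.choose_spec (exists_mean u)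

/-- The generalized mean as a continuous linear functional. -/
noncomputable def mean (𝕜 : Type*) [RCLike 𝕜] : StrongDual 𝕜 (Bd 𝕜) :=
  LinearMap.mkContinuous
    { toFun := meanFun
      map_add' := fun u v => by
        refine tendsto_nhds_unique (tendsto_meanFun (u + v)) ?_
        simp_rw [avg_add]
        exact (tendsto_meanFun u).add (tendsto_meanFun v)
      map_smul' := fun c u => by
        refine tendsto_nhds_unique (tendsto_meanFun (c • u)) ?_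
        simp_rw [avg_smul, RingHom.id_apply, smul_eq_mul]
        exact (tendsto_meanFun u).const_mul c } 1
    (fun u => by
      simp only [LinearMap.coe_mk, AddHom.coe_mk, one_mul]
      exact le_of_tendsto (tendsto_meanFun u).norm (Eventually.of_forall fun n => norm_avg_le n u))

lemma tendsto_mean (u : Bd 𝕜) :
    Tendsto (fun n => avg n u) (hyperfilter ℕ : Filter ℕ) (𝓝 (mean 𝕜 u)) := tendsto_meanFun u

lemma avg_one (n : ℕ) : avg n (1 : Bd 𝕜) = 1 := by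
  unfold avg
  simp only [BoundedContinuousFunction.coe_one, Pi.one_apply, Finset.sum_const, Finset.card_range,
    nsmul_eq_mul, mul_one]
  push_cast
  exact inv_mul_cancel₀ (pow_ne_zero _ two_ne_zero)

lemma mean_one : mean 𝕜 (1 : Bd 𝕜) = 1 := by
  refine tendsto_nhds_unique (tendsto_mean (1 : Bd 𝕜)) ?_
  simp_rw [avg_one]
  exact tendsto_const_nhds

/-- Real nonnegative sequences. -/
def IsNonneg (h : Bd 𝕜) : Prop := ∀ j, ∃ r : ℝ, 0 ≤ r ∧ h j = (r : 𝕜)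

/-- Real sequences. -/
def IsReal (h : Bd 𝕜) : Prop := ∀ j, ∃ r : ℝ, h j = (r : 𝕜)

lemma IsNonneg.isReal {h : Bd 𝕜} (hh : IsNonneg h) : IsReal h := fun j => by
  obtain ⟨r, -, hr⟩ := hh j
  exact ⟨r, hr⟩

lemma mean_isReal {h : Bd 𝕜} (hh : IsReal h) : ∃ c : ℝ, mean 𝕜 h = (c : 𝕜) := by
  refine ⟨RCLike.re (mean 𝕜 h), ?_⟩
  choose r hr using hh
  have h1 : ∀ n, avg n h = ((RCLike.re (avg n h) : ℝ) : 𝕜) := by
    intro n
    have : avg n h = ((((2 : ℝ) ^ n)⁻¹ * ∑ j ∈ Finset.range (2 ^ n), r j : ℝ) : 𝕜) := by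
      unfold avg
      push_cast
      congr 1
      exact Finset.sum_congr rfl fun j _ => hr j
    rw [this, RCLike.ofReal_re]
  refine tendsto_nhds_unique (tendsto_mean h) ?_
  have h2 : Tendsto (fun n => ((RCLike.re (avg n h) : ℝ) : 𝕜)) (hyperfilter ℕ : Filter ℕ)
      (𝓝 ((RCLike.re (mean 𝕜 h) : ℝ) : 𝕜)) :=
    (RCLike.continuous_ofReal.tendsto _).comp ((RCLike.continuous_re.tendsto _).comp
      (tendsto_mean h))
  refine h2.congr (fun n => ?_)
  exact (h1 n).symm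

lemma norm_mean_mul_le {h : Bd 𝕜} (hh : IsNonneg h) (v : Bd 𝕜) :
    ‖mean 𝕜 (h * v)‖ ≤ ‖v‖ * ‖mean 𝕜 h‖ := by
  have h1 : ∀ n, ‖avg n (h * v)‖ ≤ ‖v‖ * ‖avg n h‖ := by
    intro n
    refine (norm_avg_le_sum n _).trans ?_
    have hn : ‖avg n h‖ = ((2 : ℝ) ^ n)⁻¹ * ∑ j ∈ Finset.range (2 ^ n), ‖h j‖ := by
      choose r hr0 hr using hh
      have : avg n h = ((((2 : ℝ) ^ n)⁻¹ * ∑ j ∈ Finset.range (2 ^ n), r j : ℝ) : 𝕜) := by
        unfold avg
        push_cast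
        congr 1
        exact Finset.sum_congr rfl fun j _ => hr j
      rw [this, RCLike.norm_ofReal, abs_of_nonneg]
      · congr 1
        apply Finset.sum_congr rfl
        intro j _
        rw [hr j, RCLike.norm_ofReal, abs_of_nonneg (hr0 j)]
      · have := Finset.sum_nonneg (fun j (_ : j ∈ Finset.range (2 ^ n)) => hr0 j)
        positivity
    rw [hn]
    have : ∑ j ∈ Finset.range (2 ^ n), ‖(h * v) j‖ ≤ ‖v‖ * ∑ j ∈ Finset.range (2 ^ n), ‖h j‖ := by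
      rw [Finset.mul_sum]
      apply Finset.sum_le_sum
      intro j _
      rw [BoundedContinuousFunction.mul_apply, norm_mul, mul_comm]
      have := v.norm_coe_le_norm j
      gcongr
    calc ((2 : ℝ) ^ n)⁻¹ * ∑ j ∈ Finset.range (2 ^ n), ‖(h * v) j‖
        ≤ ((2 : ℝ) ^ n)⁻¹ * (‖v‖ * ∑ j ∈ Finset.range (2 ^ n), ‖h j‖) := by gcongr
      _ = _ := by ring
  exact le_of_tendsto_of_tendsto (tendsto_mean (h * v)).norm ((tendsto_mean h).norm.const_mul ‖v‖)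
    (Eventually.of_forall h1)

/-- Rademacher-type sequences: the sign is given by a binary digit. -/
def sgn (k j : ℕ) : ℝ := if j.testBit k then 1 else -1

lemma sgn_sq (k j : ℕ) : sgn k j * sgn k j = 1 := by
  unfold sgn
  split_ifs <;> norm_num

lemma abs_sgn (k j : ℕ) : |sgn k j| = 1 := by
  unfold sgn
  split_ifs <;> norm_num

lemma sum_sgn_mul {k l n : ℕ} (hkl : k ≠ l) (hk : k < n) :
    ∑ j ∈ Finset.range (2 ^ n), sgn k j * sgn l j = 0 := by
  apply Finset.sum_involution (fun j _ => j ^^^ 2 ^ k)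
  · intro j _
    unfold sgn
    rw [Nat.testBit_xor, Nat.testBit_xor, Nat.testBit_two_pow, Nat.testBit_two_pow]
    cases h1 : j.testBit k <;> cases h2 : j.testBit l <;> simp [hkl]
  · intro j _ _ h
    have h1 := congrArg (fun m => m.testBit k) h
    simp only [Nat.testBit_xor, Nat.testBit_two_pow] at h1
    cases h2 : j.testBit k <;> simp [h2] at h1
  · intro j hj
    simp
  · intro j hj
    rw [Finset.mem_range] at hj ⊢
    exact Nat.xor_lt_two_pow hj (Nat.pow_lt_pow_right (by norm_num) hk)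

/-- Rademacher-type sequences as bounded sequences. -/
noncomputable def rad (𝕜 : Type*) [RCLike 𝕜] (k : ℕ) : Bd 𝕜 :=
  BoundedContinuousFunction.ofNormedAddCommGroupDiscrete (fun j => ((sgn k j : ℝ) : 𝕜)) 1
    (fun j => by rw [RCLike.norm_ofReal, abs_sgn])

lemma rad_apply (k j : ℕ) : rad 𝕜 k j = ((sgn k j : ℝ) : 𝕜) := rfl

lemma rad_mul_self (k : ℕ) : rad 𝕜 k * rad 𝕜 k = 1 := by
  ext j
  rw [BoundedContinuousFunction.mul_apply, rad_apply, ← RCLike.ofReal_mul, sgn_sq]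
  simp

/-- Square averages of Rademacher sums. -/
lemma sum_sq_rad {K n : ℕ} (hK : K ≤ n) (a : ℕ → 𝕜) :
    ∑ j ∈ Finset.range (2 ^ n), ‖(∑ k ∈ Finset.range K, a k • rad 𝕜 k) j‖ ^ 2 =
      2 ^ n * ∑ k ∈ Finset.range K, ‖a k‖ ^ 2 := by
  have h0 : ∀ j, (∑ k ∈ Finset.range K, a k • rad 𝕜 k) j =
      ∑ k ∈ Finset.range K, a k * ((sgn k j : ℝ) : 𝕜) := by
    intro j
    rw [BoundedContinuousFunction.sum_apply]
    rfl
  have h1 : ∀ j, (((‖(∑ k ∈ Finset.range K, a k • rad 𝕜 k) j‖ ^ 2 : ℝ)) : 𝕜) =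
      ∑ k ∈ Finset.range K, ∑ l ∈ Finset.range K,
        a k * (starRingEnd 𝕜) (a l) * ((sgn k j * sgn l j : ℝ) : 𝕜) := by
    intro j
    rw [h0, RCLike.ofReal_pow, ← RCLike.mul_conj, map_sum, Finset.sum_mul_sum]
    apply Finset.sum_congr rfl
    intro k _
    apply Finset.sum_congr rfl
    intro l _
    rw [map_mul, RCLike.conj_ofReal]
    push_cast
    ring
  have hS : ∀ k l : ℕ, ∑ j ∈ Finset.range (2 ^ n), ((sgn k j * sgn l j : ℝ) : 𝕜) =
      ((∑ j ∈ Finset.range (2 ^ n), sgn k j * sgn l j : ℝ) : 𝕜) := by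
    intro k l
    rw [RCLike.ofReal_sum]
  have hkk : ∀ k : ℕ, ∑ j ∈ Finset.range (2 ^ n), sgn k j * sgn k j = (2 : ℝ) ^ n := by
    intro k
    rw [Finset.sum_congr rfl fun j _ => sgn_sq k j]
    simp
  have h2 : ((∑ j ∈ Finset.range (2 ^ n), ‖(∑ k ∈ Finset.range K, a k • rad 𝕜 k) j‖ ^ 2 : ℝ) : 𝕜) =
      ((2 ^ n * ∑ k ∈ Finset.range K, ‖a k‖ ^ 2 : ℝ) : 𝕜) := by
    rw [RCLike.ofReal_sum]
    rw [Finset.sum_congr rfl fun j _ => h1 j]
    rw [Finset.sum_comm, RCLike.ofReal_mul, RCLike.ofReal_sum, Finset.mul_sum]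
    apply Finset.sum_congr rfl
    intro k hk
    rw [Finset.sum_comm]
    rw [Finset.sum_eq_single k]
    · rw [← Finset.mul_sum, hS, hkk, RCLike.mul_conj]
      push_cast
      ring
    · intro l _ hlk
      rw [← Finset.mul_sum, hS, sum_sgn_mul (Ne.symm hlk) ((Finset.mem_range.mp hk).trans_le hK)]
      simp
    · intro hk'
      exact absurd hk hk'
  exact_mod_cast h2

/-- Cauchy-Schwarz for the averages. -/
lemma norm_avg_mul_rad_le {K n : ℕ} (hK : K ≤ n) (u : Bd 𝕜) (a : ℕ → 𝕜) :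
    ‖avg n (u * ∑ k ∈ Finset.range K, a k • rad 𝕜 k)‖ ≤
      ‖u‖ * Real.sqrt (∑ k ∈ Finset.range K, ‖a k‖ ^ 2) := by
  set v : Bd 𝕜 := ∑ k ∈ Finset.range K, a k • rad 𝕜 k with hv
  have h1 : ∑ j ∈ Finset.range (2 ^ n), ‖v j‖ ≤
      2 ^ n * Real.sqrt (∑ k ∈ Finset.range K, ‖a k‖ ^ 2) := by
    have h2 := sq_sum_le_card_mul_sum_sq (s := Finset.range (2 ^ n)) (f := fun j => ‖v j‖)
    rw [Finset.card_range, hv, sum_sq_rad hK a, ← hv] at h2
    push_cast at h2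
    have h3 : (∑ j ∈ Finset.range (2 ^ n), ‖v j‖) ^ 2 ≤
        (2 ^ n * Real.sqrt (∑ k ∈ Finset.range K, ‖a k‖ ^ 2)) ^ 2 := by
      rw [mul_pow, Real.sq_sqrt (Finset.sum_nonneg fun k _ => by positivity)]
      refine h2.trans (le_of_eq ?_)
      ring
    exact (pow_le_pow_iff_left₀ (Finset.sum_nonneg fun j _ => norm_nonneg _) (by positivity)
      two_ne_zero).mp h3
  clear_value v
  refine (norm_avg_le_sum n _).trans ?_
  have h4 : ∑ j ∈ Finset.range (2 ^ n), ‖(u * v) j‖ ≤ ‖u‖ * ∑ j ∈ Finset.range (2 ^ n), ‖v j‖ := by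
    rw [Finset.mul_sum]
    apply Finset.sum_le_sum
    intro j _
    rw [BoundedContinuousFunction.mul_apply, norm_mul]
    have := u.norm_coe_le_norm j
    gcongr
  calc ((2 : ℝ) ^ n)⁻¹ * ∑ j ∈ Finset.range (2 ^ n), ‖(u * v) j‖
      ≤ ((2 : ℝ) ^ n)⁻¹ * (‖u‖ * (2 ^ n * Real.sqrt (∑ k ∈ Finset.range K, ‖a k‖ ^ 2))) := by
        gcongr
        refine h4.trans ?_
        gcongr
    _ = (((2 : ℝ) ^ n)⁻¹ * 2 ^ n) * (‖u‖ * Real.sqrt (∑ k ∈ Finset.range K, ‖a k‖ ^ 2)) := by ring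
    _ = _ := by rw [inv_mul_cancel₀ (by positivity), one_mul]

lemma norm_mean_mul_rad_le (K : ℕ) (u : Bd 𝕜) (a : ℕ → 𝕜) :
    ‖mean 𝕜 (u * ∑ k ∈ Finset.range K, a k • rad 𝕜 k)‖ ≤
      ‖u‖ * Real.sqrt (∑ k ∈ Finset.range K, ‖a k‖ ^ 2) := by
  refine le_of_tendsto (tendsto_mean _).norm ?_
  have h1 : ∀ᶠ n in (hyperfilter ℕ : Filter ℕ), K ≤ n :=
    (eventually_ge_atTop K).filter_mono Nat.hyperfilter_le_atTop
  exact h1.mono fun n hn => norm_avg_mul_rad_le hn u a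

/-- A Bessel-type inequality. -/
lemma tendsto_zero_of_bessel (z : ℕ → 𝕜) (C : ℝ)
    (hz : ∀ (K : ℕ) (a : ℕ → 𝕜), ‖∑ k ∈ Finset.range K, a k * z k‖ ≤
      C * Real.sqrt (∑ k ∈ Finset.range K, ‖a k‖ ^ 2)) :
    Tendsto z atTop (𝓝 0) := by
  have h1 : ∀ K, ∑ k ∈ Finset.range K, ‖z k‖ ^ 2 ≤ C ^ 2 := by
    intro K
    have h2 := hz K (fun k => (starRingEnd 𝕜) (z k))
    have h3 : ∑ k ∈ Finset.range K, (starRingEnd 𝕜) (z k) * z k =
        ((∑ k ∈ Finset.range K, ‖z k‖ ^ 2 : ℝ) : 𝕜) := by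
      rw [RCLike.ofReal_sum]
      apply Finset.sum_congr rfl
      intro k _
      rw [RCLike.conj_mul, RCLike.ofReal_pow]
    rw [h3, RCLike.norm_ofReal] at h2
    have h4 : 0 ≤ ∑ k ∈ Finset.range K, ‖z k‖ ^ 2 := Finset.sum_nonneg fun k _ => by positivity
    rw [abs_of_nonneg h4] at h2
    have h5 : ∑ k ∈ Finset.range K, ‖(starRingEnd 𝕜) (z k)‖ ^ 2 =
        ∑ k ∈ Finset.range K, ‖z k‖ ^ 2 := by
      apply Finset.sum_congr rfl
      intro k _
      rw [RCLike.norm_conj]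
    rw [h5] at h2
    set S := ∑ k ∈ Finset.range K, ‖z k‖ ^ 2 with hS
    by_cases hS0 : S = 0
    · rw [hS0]; positivity
    · have hSpos : 0 < Real.sqrt S := Real.sqrt_pos.mpr (lt_of_le_of_ne h4 (Ne.symm hS0))
      have h6 : Real.sqrt S * Real.sqrt S ≤ C * Real.sqrt S := by
        rw [Real.mul_self_sqrt h4]; exact h2
      have h7 : Real.sqrt S ≤ C := le_of_mul_le_mul_right h6 hSpos
      calc S = Real.sqrt S ^ 2 := (Real.sq_sqrt h4).symm
        _ ≤ C ^ 2 := by gcongr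
  have hsum : Summable (fun k => ‖z k‖ ^ 2) :=
    summable_of_sum_range_le (fun k => by positivity) h1
  have h8 : Tendsto (fun k => ‖z k‖ ^ 2) atTop (𝓝 0) := hsum.tendsto_atTop_zero
  have h9 : Tendsto (fun k => Real.sqrt (‖z k‖ ^ 2)) atTop (𝓝 (Real.sqrt 0)) :=
    (Real.continuous_sqrt.tendsto 0).comp h8
  rw [Real.sqrt_zero] at h9
  rw [tendsto_zero_iff_norm_tendsto_zero]
  refine h9.congr (fun k => ?_)
  rw [Real.sqrt_sq (norm_nonneg _)]

end Pool.Agent.SuperADP
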