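import Pool.Agent.SuperADP.Tree

set_option autoImplicit false

namespace Pool.Agent.SuperADP

open Filter Topology Metric

variable {𝕜 X : Type*} [RCLike 𝕜] [NormedAddCommGroup X] [NormedSpace 𝕜 X]

/-- Weak-star slices of the dual ball. -/
def Sl (x : X) (δ : ℝ) : Set (StrongDual 𝕜 X) := {f | ‖f‖ ≤ 1 ∧ ‖x‖ - δ < RCLike.re (f x)}

/-- Being a weak-star slice. -/
def IsSlice (A : Set (StrongDual 𝕜 X)) : Prop :=
  ∃ x : X, ‖x‖ = 1 ∧ ∃ δ : ℝ, 0 < δ ∧ A = Sl x δ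

lemma sl_nonempty (x : X) {δ : ℝ} (hδ : 0 < δ) : (Sl (𝕜 := 𝕜) x δ).Nonempty := by
  obtain ⟨g, hg, hgx⟩ := exists_norming (𝕜 := 𝕜) x
  refine ⟨g, hg, ?_⟩
  rw [hgx, RCLike.ofReal_re]
  linarith

lemma IsSlice.nonempty {A : Set (StrongDual 𝕜 X)} (h : IsSlice A) : A.Nonempty := by
  obtain ⟨x, -, δ, hδ, rfl⟩ := h
  exact sl_nonempty x hδ

lemma IsSlice.norm_le {A : Set (StrongDual 𝕜 X)} (h : IsSlice A) {f : StrongDual 𝕜 X}
    (hf : f ∈ A) : ‖f‖ ≤ 1 := by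
  obtain ⟨x, -, δ, hδ, rfl⟩ := h
  exact hf.1

lemma isSlice_sl {x : X} (hx : x ≠ 0) {δ : ℝ} (hδ : 0 < δ) : IsSlice (Sl (𝕜 := 𝕜) x δ) := by
  have hpos : 0 < ‖x‖ := norm_pos_iff.mpr hx
  have hn : ‖((‖x‖⁻¹ : ℝ) : 𝕜) • x‖ = 1 := by
    rw [norm_smul, RCLike.norm_ofReal, abs_of_pos (by positivity)]
    field_simp
  refine ⟨((‖x‖⁻¹ : ℝ) : 𝕜) • x, hn, ‖x‖⁻¹ * δ, by positivity, ?_⟩
  ext f
  simp only [Sl, Set.mem_ofPred_eq]
  rw [hn, map_smul, smul_eq_mul, RCLike.re_ofReal_mul]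
  constructor
  · rintro ⟨h1, h2⟩
    refine ⟨h1, ?_⟩
    have : ‖x‖⁻¹ * (‖x‖ - δ) < ‖x‖⁻¹ * RCLike.re (f x) :=
      mul_lt_mul_of_pos_left h2 (by positivity)
    rw [mul_sub, inv_mul_cancel₀ hpos.ne'] at this
    exact this
  · rintro ⟨h1, h2⟩
    refine ⟨h1, ?_⟩
    have : ‖x‖ * (1 - ‖x‖⁻¹ * δ) < ‖x‖ * (‖x‖⁻¹ * RCLike.re (f x)) :=
      mul_lt_mul_of_pos_left h2 hpos
    rw [mul_sub, ← mul_assoc, ← mul_assoc, mul_inv_cancel₀ hpos.ne'] at this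
    linarith

/-- Every slice contains a slice on which the real part of the evaluation at `y` is almost
constant. -/
lemma osc_re {A : Set (StrongDual 𝕜 X)} (hA : IsSlice A) (y : X) (hy : ‖y‖ ≤ 1) {η : ℝ}
    (hη : 0 < η) :
    ∃ B : Set (StrongDual 𝕜 X), IsSlice B ∧ B ⊆ A ∧
      ∃ c : ℝ, ∀ f ∈ B, |RCLike.re (f y) - c| ≤ 3 * η := by
  obtain ⟨x, hx, δ, hδ, rfl⟩ := hA
  let φ : ℝ → ℝ := fun t => ‖x + (t : 𝕜) • y‖
  let t₀ : ℝ := min (δ / 4) (1 / 2)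
  have ht₀ : 0 < t₀ := lt_min (by positivity) (by norm_num)
  let S : Set ℝ := (fun t : ℝ => (φ t - 1) / t) '' Set.Ioc 0 t₀
  have hSne : S.Nonempty := ⟨_, ⟨t₀, ⟨ht₀, le_rfl⟩, rfl⟩⟩
  have hφlow : ∀ t : ℝ, 0 ≤ t → 1 - t ≤ φ t := by
    intro t ht
    have h1 : ‖x‖ ≤ φ t + ‖(t : 𝕜) • y‖ := by
      have : x = (x + (t : 𝕜) • y) - (t : 𝕜) • y := by abel
      calc ‖x‖ = ‖(x + (t : 𝕜) • y) - (t : 𝕜) • y‖ := by rw [← this]
        _ ≤ _ := norm_sub_le _ _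
    have h2 : ‖(t : 𝕜) • y‖ ≤ t := by
      rw [norm_smul, RCLike.norm_ofReal, abs_of_nonneg ht]
      nlinarith
    linarith
  have hSb : BddBelow S := by
    refine ⟨-1, ?_⟩
    rintro _ ⟨t, ⟨ht, -⟩, rfl⟩
    simp only
    rw [le_div_iff₀ ht]
    have := hφlow t ht.le
    linarith
  let c : ℝ := sInf S
  obtain ⟨_, ⟨t, ⟨ht, htle⟩, rfl⟩, hlt⟩ := exists_lt_of_csInf_lt hSne (lt_add_of_pos_right c hη)
  simp only at hlt
  let h : ℝ := t / 2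
  have hh : 0 < h := by positivity
  have hcle : c ≤ (φ h - 1) / h := csInf_le hSb ⟨h, ⟨hh, by
    have : h ≤ t := by simp only [h]; linarith
    exact this.trans htle⟩, rfl⟩
  rw [le_div_iff₀ hh] at hcle
  have ht2 : t = 2 * h := by simp only [h]; ring
  rw [div_lt_iff₀ ht, ht2] at hlt
  let δ' : ℝ := min (δ / 4) (h * η)
  have hδ' : 0 < δ' := lt_min (by positivity) (by positivity)
  have hδ'1 : δ' ≤ δ / 4 := min_le_left _ _
  have hδ'2 : δ' ≤ h * η := min_le_right _ _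
  have hh1 : 2 * h ≤ δ / 4 := by
    rw [← ht2]; exact htle.trans (min_le_left _ _)
  have hh2 : 2 * h ≤ 1 / 2 := by
    rw [← ht2]; exact htle.trans (min_le_right _ _)
  have hx' : x + (h : 𝕜) • y ≠ 0 := by
    intro h0
    have := hφlow h hh.le
    simp only [φ, h0, norm_zero] at this
    linarith
  refine ⟨Sl (x + (h : 𝕜) • y) δ', isSlice_sl hx' hδ', ?_, c, ?_⟩
  · rintro f ⟨hf1, hf2⟩
    refine ⟨hf1, ?_⟩
    rw [map_add, map_smul, smul_eq_mul, map_add, RCLike.re_ofReal_mul] at hf2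
    have h1 : RCLike.re (f y) ≤ 1 := (re_le_norm_of f hf1 y).trans hy
    have h2 := hφlow h hh.le
    simp only [φ] at h2
    rw [hx]
    nlinarith
  · rintro f ⟨hf1, hf2⟩
    have e1 : RCLike.re (f (x + (h : 𝕜) • y)) = RCLike.re (f x) + h * RCLike.re (f y) := by
      rw [map_add, map_smul, smul_eq_mul, map_add, RCLike.re_ofReal_mul]
    have e2 : RCLike.re (f (x + ((2 * h : ℝ) : 𝕜) • y)) =
        RCLike.re (f x) + (2 * h) * RCLike.re (f y) := by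
      rw [map_add, map_smul, smul_eq_mul, map_add, RCLike.re_ofReal_mul]
    have u1 : RCLike.re (f (x + ((2 * h : ℝ) : 𝕜) • y)) ≤ φ (2 * h) := re_le_norm_of f hf1 _
    have u2 : RCLike.re (f x) ≤ 1 := (re_le_norm_of f hf1 x).trans hx.le
    rw [e1] at hf2
    rw [e2] at u1
    have hf3 : φ h - δ' < RCLike.re (f x) + h * RCLike.re (f y) := hf2
    rw [abs_le]
    constructor
    · have : h * (c - 3 * η) ≤ h * RCLike.re (f y) := by nlinarith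
      have := le_of_mul_le_mul_left this hh
      linarith
    · have : h * RCLike.re (f y) ≤ h * (c + 3 * η) := by nlinarith
      have := le_of_mul_le_mul_left this hh
      linarith

/-- Every slice contains a slice on which the evaluation at `y` is almost constant. -/
lemma osc {A : Set (StrongDual 𝕜 X)} (hA : IsSlice A) (y : X) (hy : ‖y‖ ≤ 1) {η : ℝ}
    (hη : 0 < η) :
    ∃ B : Set (StrongDual 𝕜 X), IsSlice B ∧ B ⊆ A ∧ ∃ v : 𝕜, ∀ f ∈ B, ‖f y - v‖ ≤ η := by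
  obtain ⟨B₁, hB₁, hsub₁, c₁, hc₁⟩ := osc_re hA y hy (η := η / 6) (by positivity)
  have hI : ‖(RCLike.I : 𝕜)‖ ≤ 1 := by
    rcases RCLike.I_mul_I (K := 𝕜) with h | h
    · rw [h]; simp
    · have : ‖(RCLike.I : 𝕜)‖ * ‖(RCLike.I : 𝕜)‖ = 1 := by
        rw [← norm_mul, h]; simp
      nlinarith [norm_nonneg (RCLike.I : 𝕜)]
  obtain ⟨B₂, hB₂, hsub₂, c₂, hc₂⟩ := osc_re hB₁ ((-RCLike.I : 𝕜) • y) (by
    rw [norm_smul, norm_neg]
    nlinarith [norm_nonneg y, norm_nonneg (RCLike.I : 𝕜)]) (η := η / 6) (by positivity)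
  refine ⟨B₂, hB₂, hsub₂.trans hsub₁, (c₁ : 𝕜) + (c₂ : 𝕜) * RCLike.I, fun f hf => ?_⟩
  have h1 := hc₁ f (hsub₂ hf)
  have h2 := hc₂ f hf
  rw [map_smul, smul_eq_mul, neg_mul, map_neg, RCLike.I_mul_re, neg_neg] at h2
  have hz : f y - ((c₁ : 𝕜) + (c₂ : 𝕜) * RCLike.I) =
      ((RCLike.re (f y) - c₁ : ℝ) : 𝕜) + ((RCLike.im (f y) - c₂ : ℝ) : 𝕜) * RCLike.I := by
    conv_lhs => rw [← RCLike.re_add_im (f y)]
    push_cast
    ring
  rw [hz]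
  refine (norm_add_le _ _).trans ?_
  rw [norm_mul, RCLike.norm_ofReal, RCLike.norm_ofReal]
  have : |RCLike.im (f y) - c₂| * ‖(RCLike.I : 𝕜)‖ ≤ |RCLike.im (f y) - c₂| * 1 := by
    gcongr
  linarith

end Pool.Agent.SuperADP
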