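import Pool.Agent.SuperADP.Defs

set_option autoImplicit false

namespace Pool.Agent.SuperADP

open Filter Topology Metric

variable {𝕜 X : Type*} [RCLike 𝕜] [NormedAddCommGroup X] [NormedSpace 𝕜 X]

/-- Basic weak neighbourhoods. -/
lemma weak_nhds {U : Set (WeakSpace 𝕜 X)} (hU : IsOpen U) {y₀ : X}
    (hy : toWeakSpace 𝕜 X y₀ ∈ U) :
    ∃ (s : Finset (StrongDual 𝕜 X)) (r : ℝ), 0 < r ∧
      ∀ y : X, (∀ f ∈ s, ‖f (y - y₀)‖ < r) → toWeakSpace 𝕜 X y ∈ U := by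
  have hmem : U ∈ 𝓝 (toWeakSpace 𝕜 X y₀) := hU.mem_nhds hy
  have hws := (topDualPairing 𝕜 X).flip.weakBilin_withSeminorms
  obtain ⟨s, r, hr, hsub⟩ := (hws.mem_nhds_iff _ _).1 hmem
  refine ⟨s, r, hr, fun y hy' => hsub ?_⟩
  rw [Seminorm.mem_ball]
  apply Seminorm.finset_sup_apply_lt hr
  intro f hf
  exact hy' f hf

/-- In an infinite-dimensional space, a weakly open set meeting the unit ball meets the sphere. -/
lemma meets_sphere (hX : ¬ FiniteDimensional 𝕜 X) {U : Set (WeakSpace 𝕜 X)} (hU : IsOpen U)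
    {y₀ : X} (hy₀ : ‖y₀‖ ≤ 1) (hy : toWeakSpace 𝕜 X y₀ ∈ U) :
    ∃ y : X, ‖y‖ = 1 ∧ toWeakSpace 𝕜 X y ∈ U := by
  obtain ⟨s, r, hr, hs⟩ := weak_nhds hU hy
  -- a nonzero vector killed by all functionals in `s`
  obtain ⟨v, hv, hv0⟩ : ∃ v : X, (∀ f ∈ s, f v = 0) ∧ v ≠ 0 := by
    by_contra hcon
    push Not at hcon
    apply hX
    let L : X →ₗ[𝕜] (s → 𝕜) := LinearMap.pi (fun f => (f.1 : X →ₗ[𝕜] 𝕜))
    have hinj : Function.Injective L := by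
      rw [← LinearMap.ker_eq_bot, LinearMap.ker_eq_bot']
      intro m hm
      apply hcon
      intro f hf
      exact congrFun hm ⟨f, hf⟩
    exact FiniteDimensional.of_injective L hinj
  have hvpos : 0 < ‖v‖ := norm_pos_iff.mpr hv0
  let φ : ℝ → ℝ := fun t => ‖y₀ + (t : 𝕜) • v‖
  have hφc : Continuous φ := by
    have : Continuous (fun t : ℝ => (t : 𝕜)) := RCLike.continuous_ofReal
    fun_prop
  have h0 : φ 0 ≤ 1 := by simpa [φ] using hy₀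
  have h1 : 1 ≤ φ (2 / ‖v‖) := by
    have h2 : ‖((2 / ‖v‖ : ℝ) : 𝕜) • v‖ = 2 := by
      rw [norm_smul, RCLike.norm_ofReal, abs_of_pos (by positivity)]
      field_simp
    have h3 : ‖((2 / ‖v‖ : ℝ) : 𝕜) • v‖ ≤ φ (2 / ‖v‖) + ‖y₀‖ := by
      have : ((2 / ‖v‖ : ℝ) : 𝕜) • v = (y₀ + ((2 / ‖v‖ : ℝ) : 𝕜) • v) - y₀ := by abel
      calc ‖((2 / ‖v‖ : ℝ) : 𝕜) • v‖ = ‖(y₀ + ((2 / ‖v‖ : ℝ) : 𝕜) • v) - y₀‖ := by rw [← this]
        _ ≤ _ := norm_sub_le _ _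
    linarith
  obtain ⟨t, -, ht⟩ := intermediate_value_Icc (by positivity : (0 : ℝ) ≤ 2 / ‖v‖)
    hφc.continuousOn ⟨h0, h1⟩
  refine ⟨y₀ + (t : 𝕜) • v, ht, hs _ fun f hf => ?_⟩
  simpa [hv f hf] using hr

/-- Epsilon form of the super alternative Daugavet property. -/
lemma HasSuperADP.exists_lt (h : HasSuperADP 𝕜 X) (hX : ¬ FiniteDimensional 𝕜 X) {x : X}
    (hx : ‖x‖ = 1) {U : Set (WeakSpace 𝕜 X)} (hU : IsOpen U) {y₀ : X} (hy₀ : ‖y₀‖ ≤ 1)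
    (hy : toWeakSpace 𝕜 X y₀ ∈ U) {ε : ℝ} (hε : 0 < ε) :
    ∃ y : X, ‖y‖ ≤ 1 ∧ toWeakSpace 𝕜 X y ∈ U ∧ ∃ θ : 𝕜, ‖θ‖ = 1 ∧ 2 - ε < ‖x + θ • y‖ := by
  have h2 := h x hx U hU (meets_sphere hX hU hy₀ hy)
  obtain ⟨r, ⟨y, hy1, hy2, θ, hθ, rfl⟩, hr, -⟩ := h2.exists_between (b := 2 - ε) (by linarith)
  exact ⟨y, hy1, hy2, θ, hθ, hr⟩

lemma isOpen_eval (g : StrongDual 𝕜 X) (c : ℝ) :
    IsOpen {z : WeakSpace 𝕜 X | c < ‖g ((toWeakSpace 𝕜 X).symm z)‖} := by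
  have : Continuous (fun z : WeakSpace 𝕜 X => g ((toWeakSpace 𝕜 X).symm z)) :=
    WeakBilin.eval_continuous (topDualPairing 𝕜 X).flip g
  exact isOpen_lt continuous_const this.norm

lemma isOpen_eval' (g : StrongDual 𝕜 X) (c : ℝ) :
    IsOpen {z : WeakSpace 𝕜 X | ‖g ((toWeakSpace 𝕜 X).symm z)‖ < c} := by
  have : Continuous (fun z : WeakSpace 𝕜 X => g ((toWeakSpace 𝕜 X).symm z)) :=
    WeakBilin.eval_continuous (topDualPairing 𝕜 X).flip g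
  exact isOpen_lt this.norm continuous_const

/-- A norming functional. -/
lemma exists_norming (x : X) : ∃ g : StrongDual 𝕜 X, ‖g‖ ≤ 1 ∧ g x = (‖x‖ : 𝕜) :=
  exists_dual_vector'' 𝕜 x

/-- Rotation of a scalar. -/
lemma exists_rot (z : 𝕜) : ∃ θ : 𝕜, ‖θ‖ = 1 ∧ θ * z = (‖z‖ : 𝕜) := by
  obtain ⟨c, hc, hc2⟩ := RCLike.exists_norm_eq_mul_self z
  exact ⟨c, hc, hc2.symm⟩

lemma re_le_norm_of (g : StrongDual 𝕜 X) (hg : ‖g‖ ≤ 1) (x : X) : RCLike.re (g x) ≤ ‖x‖ :=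
  (RCLike.re_le_norm _).trans ((g.le_of_opNorm_le hg x).trans (by simp))

lemma norm_le_of (g : StrongDual 𝕜 X) (hg : ‖g‖ ≤ 1) (x : X) : ‖g x‖ ≤ ‖x‖ :=
  (g.le_of_opNorm_le hg x).trans (by simp)

/-- Simultaneous version for finitely many points of the sphere. -/
lemma HasSuperADP.exists_multi (h : HasSuperADP 𝕜 X) (hX : ¬ FiniteDimensional 𝕜 X)
    (s : Finset X) (hs : ∀ x ∈ s, ‖x‖ = 1) {η : ℝ} (hη : 0 < η) :
    ∀ (U : Set (WeakSpace 𝕜 X)), IsOpen U → ∀ (y₀ : X), ‖y₀‖ ≤ 1 → toWeakSpace 𝕜 X y₀ ∈ U →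
    ∃ y : X, ‖y‖ ≤ 1 ∧ toWeakSpace 𝕜 X y ∈ U ∧
      ∀ x ∈ s, ∃ θ : 𝕜, ‖θ‖ = 1 ∧ 2 - η < ‖x + θ • y‖ := by
  classical
  induction s using Finset.induction_on with
  | empty =>
    intro U hU y₀ hy₀ hy
    exact ⟨y₀, hy₀, hy, by simp⟩
  | insert a s ha ih =>
    intro U hU y₀ hy₀ hy
    obtain ⟨y₁, hy₁, hy₁U, θ, hθ, hlt⟩ := h.exists_lt hX (hs a (Finset.mem_insert_self _ _)) hU hy₀ hy
      (half_pos hη)
    obtain ⟨g, hg, hgx⟩ := exists_norming (𝕜 := 𝕜) (a + θ • y₁)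
    have hsum : RCLike.re (g a) + RCLike.re (g (θ • y₁)) = ‖a + θ • y₁‖ := by
      rw [← map_add, ← map_add, hgx, RCLike.ofReal_re]
    have hna : ‖a‖ = 1 := hs a (Finset.mem_insert_self _ _)
    have hga : 1 - η / 2 < RCLike.re (g a) := by
      have h1 : RCLike.re (g (θ • y₁)) ≤ 1 := by
        refine (re_le_norm_of g hg _).trans ?_
        rw [norm_smul, hθ, one_mul]
        exact hy₁
      linarith
    have hgy : 1 - η / 2 < ‖g y₁‖ := by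
      have h1 : RCLike.re (g a) ≤ 1 := (re_le_norm_of g hg _).trans hna.le
      have h2 : RCLike.re (g (θ • y₁)) ≤ ‖g y₁‖ := by
        refine (RCLike.re_le_norm _).trans ?_
        rw [map_smul, smul_eq_mul, norm_mul, hθ, one_mul]
      linarith
    obtain ⟨y, hy, hyU, hys⟩ := ih (fun x hx => hs x (Finset.mem_insert_of_mem hx))
      (U ∩ {z : WeakSpace 𝕜 X | 1 - η / 2 < ‖g ((toWeakSpace 𝕜 X).symm z)‖})
      (hU.inter (isOpen_eval g _)) y₁ hy₁ ⟨hy₁U, by simpa using hgy⟩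
    refine ⟨y, hy, hyU.1, fun x hx => ?_⟩
    rcases Finset.mem_insert.mp hx with rfl | hx
    · obtain ⟨σ, hσ, hσy⟩ := exists_rot (g y)
      refine ⟨σ, hσ, ?_⟩
      have h1 : 1 - η / 2 < ‖g y‖ := by simpa using hyU.2
      calc 2 - η < RCLike.re (g x) + ‖g y‖ := by linarith
        _ = RCLike.re (g (x + σ • y)) := by
          rw [map_add, map_smul, smul_eq_mul, hσy, map_add, RCLike.ofReal_re]
        _ ≤ ‖x + σ • y‖ := re_le_norm_of g hg _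
    · exact hys x hx

end Pool.Agent.SuperADP
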